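import Mathlib

/-!
# MP_f3c012_al: adjoint relators (helper80)

For a word `w` and an element `r` of a free group `tw i w r` is the product of the conjugates
`g⁻¹ r^(±1) g` over the terms `± g` of the Fox derivative of `w` with respect to the generator `i`.
-/

set_option autoImplicit false

namespace Pool.Agent.Work.MP_f3c012_al

open Subgroup

/-- The product of the `g⁻¹ r^(±1) g` over the terms `± g` of the Fox derivative `∂w/∂x_i`. -/
def tw {k : ℕ} (i : Fin k) : List (Fin k × Bool) → FreeGroup (Fin k) → FreeGroup (Fin k)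
  | [], _ => 1
  | (a, b) :: w, r =>
      (if a = i then (if b then r else FreeGroup.of a * r⁻¹ * (FreeGroup.of a)⁻¹) else 1) *
        tw i w ((FreeGroup.mk [(a, b)])⁻¹ * r * FreeGroup.mk [(a, b)])

section deriv

variable {k : ℕ} {Q : Type*} [MulAction (FreeGroup (Fin k)) Q]
  (c : FreeGroup (Fin k) → Q → ℤ) (hc : ∀ g h t, c (g * h) t = c g t + c h (g⁻¹ • t))

include hc

theorem adj_one (t : Q) : c 1 t = 0 := by
  have h := hc 1 1 t
  rw [mul_one, inv_one, one_smul] at h
  omega

theorem adj_inv (g : FreeGroup (Fin k)) (t : Q) : c g⁻¹ t = - c g (g • t) := by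
  have h := hc g⁻¹ g t
  rw [inv_mul_cancel, adj_one c hc, inv_inv] at h
  omega

theorem adj_conj (g r : FreeGroup (Fin k)) (hr : ∀ t : Q, r • t = t) (t : Q) :
    c (g⁻¹ * r * g) t = c r (g • t) := by
  have hr' : ∀ t : Q, r⁻¹ • t = t := fun t => by
    rw [inv_smul_eq_iff, hr]
  rw [mul_assoc, hc, hc, adj_inv c hc, inv_inv, hr']
  ring

omit hc in
theorem act_conj (g r : FreeGroup (Fin k)) (hr : ∀ t : Q, r • t = t) (t : Q) :
    (g⁻¹ * r * g) • t = t := by
  rw [mul_smul, mul_smul, hr, inv_smul_smul]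

theorem adj_key [Fintype Q] (w : List (Fin k × Bool)) : ∀ r : FreeGroup (Fin k),
    (∀ t : Q, r • t = t) →
    (∀ i, ∀ t : Q, tw i w r • t = t) ∧
    ∑ i, ∑ t, c (FreeGroup.of i) t * c (tw i w r) t = ∑ t, c (FreeGroup.mk w) t * c r t := by
  induction w with
  | nil =>
    intro r hr
    refine ⟨fun i t => by simp [tw], ?_⟩
    have h1 : (FreeGroup.mk ([] : List (Fin k × Bool))) = 1 := rfl
    simp [tw, h1, adj_one c hc]
  | cons p w ih =>
    obtain ⟨a, b⟩ := p
    intro r hr
    set y : FreeGroup (Fin k) := FreeGroup.mk [(a, b)] with hy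
    have hr2 : ∀ t : Q, (y⁻¹ * r * y) • t = t := act_conj y r hr
    obtain ⟨ih1, ih2⟩ := ih (y⁻¹ * r * y) hr2
    let u : Fin k → FreeGroup (Fin k) := fun i =>
      if a = i then (if b then r else FreeGroup.of a * r⁻¹ * (FreeGroup.of a)⁻¹) else 1
    have hri : ∀ t : Q, r⁻¹ • t = t := fun t => by rw [inv_smul_eq_iff, hr]
    have hu : ∀ i, ∀ t : Q, u i • t = t := by
      intro i t
      by_cases hai : a = i
      · cases b
        · simp only [u, hai, if_true]
          simp only [Bool.false_eq_true, if_false]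
          have := act_conj ((FreeGroup.of i)⁻¹) r⁻¹ hri t
          rwa [inv_inv] at this
        · simp only [u, hai, if_true]
          exact hr t
      · simp only [u, hai, if_false, one_smul]
    have htw : ∀ i, tw i ((a, b) :: w) r = u i * tw i w (y⁻¹ * r * y) := fun i => rfl
    have hui : ∀ i, ∀ t : Q, (u i)⁻¹ • t = t := fun i t => by rw [inv_smul_eq_iff, hu]
    refine ⟨fun i t => ?_, ?_⟩
    · rw [htw, mul_smul, ih1, hu]
    · have e1 : ∀ i, ∑ t, c (FreeGroup.of i) t * c (tw i ((a, b) :: w) r) t =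
          ∑ t, c (FreeGroup.of i) t * c (u i) t +
            ∑ t, c (FreeGroup.of i) t * c (tw i w (y⁻¹ * r * y)) t := by
        intro i
        rw [← Finset.sum_add_distrib]
        refine Finset.sum_congr rfl fun t _ => ?_
        rw [htw, hc, hui]
        ring
      rw [Finset.sum_congr rfl fun i _ => e1 i, Finset.sum_add_distrib, ih2]
      have e2 : ∑ t, c (FreeGroup.mk w) t * c (y⁻¹ * r * y) t =
          ∑ t, c (FreeGroup.mk w) (y⁻¹ • t) * c r t := by
        rw [← Equiv.sum_comp (MulAction.toPerm (y⁻¹) : Equiv.Perm Q)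
          (fun t => c (FreeGroup.mk w) t * c (y⁻¹ * r * y) t)]
        refine Finset.sum_congr rfl fun t _ => ?_
        rw [MulAction.toPerm_apply, adj_conj c hc y r hr, smul_inv_smul]
      have e3 : ∑ i, ∑ t, c (FreeGroup.of i) t * c (u i) t =
          ∑ t, c (FreeGroup.of a) t * c (u a) t := by
        rw [Finset.sum_eq_single a]
        · intro i _ hia
          have : u i = 1 := by simp only [u, Ne.symm hia, if_false]
          simp [this, adj_one c hc]
        · intro h; exact absurd (Finset.mem_univ a) h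
      have e4 : ∑ t, c (FreeGroup.of a) t * c (u a) t = ∑ t, c y t * c r t := by
        cases b
        · have hu2 : u a = ((FreeGroup.of a)⁻¹)⁻¹ * r⁻¹ * (FreeGroup.of a)⁻¹ := by
            simp [u]
          have hy2 : y = (FreeGroup.of a)⁻¹ := rfl
          rw [hu2, hy2]
          rw [← Equiv.sum_comp (MulAction.toPerm (FreeGroup.of a) : Equiv.Perm Q)
            (fun t => c (FreeGroup.of a) t * c (((FreeGroup.of a)⁻¹)⁻¹ * r⁻¹ *
              (FreeGroup.of a)⁻¹) t)]
          refine Finset.sum_congr rfl fun t _ => ?_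
          rw [MulAction.toPerm_apply, adj_conj c hc _ r⁻¹ hri, inv_smul_smul, adj_inv c hc,
            adj_inv c hc, hr]
          ring
        · have hu2 : u a = r := by simp [u]
          have hy2 : y = FreeGroup.of a := rfl
          rw [hu2, hy2]
      have e5 : ∀ t, c (FreeGroup.mk ((a, b) :: w)) t = c y t + c (FreeGroup.mk w) (y⁻¹ • t) := by
        intro t
        have : FreeGroup.mk ((a, b) :: w) = y * FreeGroup.mk w := rfl
        rw [this, hc]
      rw [e2, e3, e4, ← Finset.sum_add_distrib]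
      refine Finset.sum_congr rfl fun t _ => ?_
      rw [e5]
      ring

/-- The adjoint relators. -/
def sadj (L : List (FreeGroup (Fin k))) (i : Fin k) : FreeGroup (Fin k) :=
  (L.map fun r => tw i r.toWord r).prod

theorem adj_list [Fintype Q] (L : List (FreeGroup (Fin k))) (hL : ∀ r ∈ L, ∀ t : Q, r • t = t) :
    (∀ i, ∀ t : Q, sadj L i • t = t) ∧
    ∑ i, ∑ t, c (FreeGroup.of i) t * c (sadj L i) t = (L.map fun r => ∑ t, c r t * c r t).sum := by
  induction L with
  | nil =>
    refine ⟨fun i t => by simp [sadj], ?_⟩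
    simp [sadj, adj_one c hc]
  | cons r L ih =>
    obtain ⟨ih1, ih2⟩ := ih fun r hr => hL r (List.mem_cons_of_mem _ hr)
    obtain ⟨h1, h2⟩ := adj_key c hc r.toWord r (hL r List.mem_cons_self)
    have e : ∀ i, sadj (r :: L) i = tw i r.toWord r * sadj L i := fun i => by
      simp [sadj]
    refine ⟨fun i t => by rw [e, mul_smul, ih1, h1], ?_⟩
    rw [List.map_cons, List.sum_cons, ← ih2]
    rw [FreeGroup.mk_toWord] at h2
    rw [← h2, ← Finset.sum_add_distrib]
    refine Finset.sum_congr rfl fun i _ => ?_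
    rw [← Finset.sum_add_distrib]
    refine Finset.sum_congr rfl fun t _ => ?_
    have h3 : (tw i r.toWord r)⁻¹ • t = t := by rw [inv_smul_eq_iff, h1]
    rw [e, hc, h3]
    ring

theorem adj_zero [Fintype Q] (L : List (FreeGroup (Fin k))) (hL : ∀ r ∈ L, ∀ t : Q, r • t = t)
    (h0 : ∀ i, ∀ t, c (sadj L i) t = 0) : ∀ r ∈ L, ∀ t, c r t = 0 := by
  have h1 := (adj_list c hc L hL).2
  have h2 : ∑ i, ∑ t, c (FreeGroup.of i) t * c (sadj L i) t = 0 :=
    Finset.sum_eq_zero fun i _ => Finset.sum_eq_zero fun t _ => by rw [h0, mul_zero]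
  rw [h2] at h1
  intro r hr t
  have h3 : ∀ x ∈ L.map (fun r => ∑ t, c r t * c r t), 0 ≤ x := by
    intro x hx
    obtain ⟨r, _, rfl⟩ := List.mem_map.1 hx
    exact Finset.sum_nonneg fun t _ => mul_self_nonneg _
  have h4 : ∑ t, c r t * c r t ≤ 0 := by
    rw [h1]
    exact List.single_le_sum h3 _ (List.mem_map.2 ⟨r, hr, rfl⟩)
  have h5 := (Finset.sum_eq_zero_iff_of_nonneg (s := Finset.univ)
    (f := fun t => c r t * c r t) (fun t _ => mul_self_nonneg _)).1
    (le_antisymm h4 (Finset.sum_nonneg fun t _ => mul_self_nonneg _)) t (Finset.mem_univ t)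
  exact mul_self_eq_zero.1 h5

end deriv

/-- The adjoint relators lie in every normal subgroup which contains the relators. -/
theorem tw_mem {k : ℕ} (N : Subgroup (FreeGroup (Fin k))) [N.Normal] (i : Fin k)
    (w : List (Fin k × Bool)) : ∀ r ∈ N, tw i w r ∈ N := by
  induction w with
  | nil => intro r _; exact N.one_mem
  | cons p w ih =>
    obtain ⟨a, b⟩ := p
    intro r hr
    have h1 : (FreeGroup.mk [(a, b)])⁻¹ * r * FreeGroup.mk [(a, b)] ∈ N := by
      have := (‹N.Normal›).conj_mem r hr (FreeGroup.mk [(a, b)])⁻¹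
      rwa [inv_inv] at this
    refine N.mul_mem ?_ (ih _ h1)
    split_ifs
    · exact hr
    · exact (‹N.Normal›).conj_mem _ (N.inv_mem hr) _
    · exact N.one_mem

theorem sadj_mem {k : ℕ} (N : Subgroup (FreeGroup (Fin k))) [N.Normal]
    (L : List (FreeGroup (Fin k))) (hL : ∀ r ∈ L, r ∈ N) (i : Fin k) : sadj L i ∈ N := by
  unfold sadj
  refine N.list_prod_mem fun x hx => ?_
  obtain ⟨r, hr, rfl⟩ := List.mem_map.1 hx
  exact tw_mem N i _ r (hL r hr)

section induced

variable {k : ℕ} (N : Subgroup (FreeGroup (Fin k))) [N.Normal] (χ : N →* Multiplicative ℤ)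

theorem mem_out (g : FreeGroup (Fin k)) (t : FreeGroup (Fin k) ⧸ N) :
    (t.out)⁻¹ * g * (g⁻¹ • t).out ∈ N := by
  have h1 : ((g * (g⁻¹ • t).out : FreeGroup (Fin k)) : FreeGroup (Fin k) ⧸ N) = t.out := by
    have h2 : ((g * (g⁻¹ • t).out : FreeGroup (Fin k)) : FreeGroup (Fin k) ⧸ N) =
        g • (((g⁻¹ • t).out : FreeGroup (Fin k)) : FreeGroup (Fin k) ⧸ N) := rfl
    rw [h2, QuotientGroup.out_eq', QuotientGroup.out_eq', smul_inv_smul]
  have h3 := QuotientGroup.eq.1 h1.symm
  rwa [← mul_assoc] at h3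

/-- The induced derivation. -/
noncomputable def indc (g : FreeGroup (Fin k)) (t : FreeGroup (Fin k) ⧸ N) : ℤ :=
  Multiplicative.toAdd (χ ⟨(t.out)⁻¹ * g * (g⁻¹ • t).out, mem_out N g t⟩)

theorem indc_mul (g h : FreeGroup (Fin k)) (t : FreeGroup (Fin k) ⧸ N) :
    indc N χ (g * h) t = indc N χ g t + indc N χ h (g⁻¹ • t) := by
  unfold indc
  rw [← toAdd_mul, ← map_mul]
  congr 2
  apply Subtype.ext
  simp only [Subgroup.coe_mul, mul_inv_rev, mul_smul]
  group

theorem act_triv (n : FreeGroup (Fin k)) (hn : n ∈ N) (t : FreeGroup (Fin k) ⧸ N) : n • t = t := by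
  rw [← QuotientGroup.out_eq' t]
  change ((n * t.out : FreeGroup (Fin k)) : FreeGroup (Fin k) ⧸ N) = _
  apply Eq.symm
  rw [QuotientGroup.eq]
  have := (‹N.Normal›).conj_mem n hn (t.out)⁻¹
  simpa [mul_assoc] using this

theorem indc_mem (n : FreeGroup (Fin k)) (hn : n ∈ N) (t : FreeGroup (Fin k) ⧸ N)
    (hm : (t.out)⁻¹ * n * t.out ∈ N) :
    indc N χ n t = Multiplicative.toAdd (χ ⟨(t.out)⁻¹ * n * t.out, hm⟩) := by
  unfold indc
  congr 2
  apply Subtype.ext
  simp only
  rw [act_triv N n⁻¹ (N.inv_mem hn) t]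

/-- **The adjoint trick**: a character of a normal subgroup `N` of finite index, which contains
the relators, and which vanishes on the conjugates of the adjoint relators, vanishes on the
conjugates of the relators. -/
theorem adjoint_trick [Finite (FreeGroup (Fin k) ⧸ N)] (L : List (FreeGroup (Fin k)))
    (hL : ∀ r ∈ L, r ∈ N)
    (h0 : ∀ i, ∀ g : FreeGroup (Fin k), ∀ hm : g⁻¹ * sadj L i * g ∈ N, χ ⟨_, hm⟩ = 1)
    (r : FreeGroup (Fin k)) (hr : r ∈ L) (g : FreeGroup (Fin k)) (hm : g * r * g⁻¹ ∈ N) :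
    χ ⟨_, hm⟩ = 1 := by
  letI := Fintype.ofFinite (FreeGroup (Fin k) ⧸ N)
  have key := adj_zero (indc N χ) (indc_mul N χ) L (fun r hr => act_triv N r (hL r hr)) (by
    intro i t
    have hs := sadj_mem N L hL i
    have hm' : (t.out)⁻¹ * sadj L i * t.out ∈ N := by
      have := (‹N.Normal›).conj_mem _ hs (t.out)⁻¹
      rwa [inv_inv] at this
    rw [indc_mem N χ _ hs t hm', h0 i t.out hm']
    rfl) r hr
  let t : FreeGroup (Fin k) ⧸ N := ((g⁻¹ : FreeGroup (Fin k)) : FreeGroup (Fin k) ⧸ N)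
  have hrN := hL r hr
  have hm' : (t.out)⁻¹ * r * t.out ∈ N := by
    have := (‹N.Normal›).conj_mem _ hrN (t.out)⁻¹
    rwa [inv_inv] at this
  have h1 : χ ⟨(t.out)⁻¹ * r * t.out, hm'⟩ = 1 := by
    have := key t
    rw [indc_mem N χ r hrN t hm'] at this
    exact this
  -- `t.out = g⁻¹ n`
  have h2 : g * t.out ∈ N := by
    have h3 : ((g⁻¹ : FreeGroup (Fin k)) : FreeGroup (Fin k) ⧸ N) = (t.out : _) :=
      (QuotientGroup.out_eq' t).symm
    have := QuotientGroup.eq.1 h3
    rwa [inv_inv] at this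
  have h4 : (⟨g * r * g⁻¹, hm⟩ : N) =
      ⟨g * t.out, h2⟩ * ⟨(t.out)⁻¹ * r * t.out, hm'⟩ * ⟨g * t.out, h2⟩⁻¹ := by
    apply Subtype.ext
    simp only [Subgroup.coe_mul, InvMemClass.coe_inv]
    group
  rw [h4, map_mul, map_mul, h1, map_inv, mul_one, mul_inv_cancel]

end induced

end Pool.Agent.Work.MP_f3c012_al
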