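import Pool.Agent.Work.MP_f3c012_al.A
import Pool.Agent.Work.MP_f3c012_al.AdjA

/-!
# MP_f3c012_al: finite abelianization above the kernel (helper80)
-/

set_option autoImplicit false
set_option linter.style.haveILetI false

namespace Pool.Agent.Work.MP_f3c012_al

open Subgroup

/-- A finitely generated group without nontrivial homomorphisms to the integers has finite
abelianization. -/
theorem finite_ab_of_hom {A : Type*} [Group A] [Group.FG A]
    (h : ∀ χ : A →* Multiplicative ℤ, χ = 1) : Finite (Abelianization A) := by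
  classical
  haveI : Group.FG (Abelianization A) :=
    Group.fg_of_surjective (f := Abelianization.of) (QuotientGroup.mk'_surjective _)
  obtain ⟨ι, j, hι, hj, p, hp, e, ⟨f⟩⟩ :=
    CommGroup.equiv_free_prod_prod_multiplicative_zmod (Abelianization A)
  haveI : IsEmpty j := by
    by_contra hne
    rw [not_isEmpty_iff] at hne
    obtain ⟨x⟩ := hne
    let g : (j → Multiplicative ℤ) × ((i : ι) → Multiplicative (ZMod (p i ^ e i))) →*
        Multiplicative ℤ := (Pi.evalMonoidHom _ x).comp (MonoidHom.fst _ _)
    have h1 := h ((g.comp f.toMonoidHom).comp Abelianization.of)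
    obtain ⟨y, hy⟩ := QuotientGroup.mk'_surjective _ (f.symm (Pi.mulSingle x (Multiplicative.ofAdd 1), 1))
    have h2 := DFunLike.congr_fun h1 y
    have h3 : Abelianization.of y = f.symm (Pi.mulSingle x (Multiplicative.ofAdd 1), 1) := hy
    rw [MonoidHom.comp_apply, h3, MonoidHom.comp_apply] at h2
    have h4 : g (f (f.symm (Pi.mulSingle x (Multiplicative.ofAdd 1), 1))) = 1 := h2
    rw [MulEquiv.apply_symm_apply] at h4
    simp only [g, MonoidHom.comp_apply, MonoidHom.coe_fst, Pi.evalMonoidHom_apply,
      Pi.mulSingle_eq_same] at h4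
    have h5 : (1 : ℤ) = 0 := h4
    omega
  haveI : ∀ i, NeZero (p i ^ e i) := fun i => ⟨pow_ne_zero _ (hp i).ne_zero⟩
  haveI : ∀ i, Finite (Multiplicative (ZMod (p i ^ e i))) := fun i => by
    haveI : Finite (ZMod (p i ^ e i)) := inferInstance
    exact Finite.of_equiv _ Multiplicative.ofAdd
  exact Finite.of_equiv _ f.symm.toEquiv

/-- A group with finite abelianization has no nontrivial homomorphism to the integers. -/
theorem hom_of_finite_ab {A : Type*} [Group A] [Finite (Abelianization A)]
    (χ : A →* Multiplicative ℤ) : χ = 1 := by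
  ext a
  have h1 : χ a = Abelianization.lift χ (Abelianization.of a) := by
    rw [Abelianization.lift_apply_of]
  obtain ⟨n, hn, hxn⟩ := isOfFinOrder_iff_pow_eq_one.1
    (isOfFinOrder_of_finite (Abelianization.of a))
  have h2 : χ a ^ n = 1 := by rw [h1, ← map_pow, hxn, map_one]
  have h3 : n • Multiplicative.toAdd (χ a) = 0 := h2
  rw [smul_eq_zero] at h3
  rcases h3 with h3 | h3
  · omega
  · exact h3

variable {k : ℕ}

/-- The main step: `N` is a normal subgroup of finite index of the free group which contains the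
relators. -/
theorem finite_ab_adj (L : List (FreeGroup (Fin k))) (N : Subgroup (FreeGroup (Fin k)))
    [N.Normal] [N.FiniteIndex] (hL : ∀ r ∈ L, r ∈ N)
    {Γ : Type*} [Group Γ] (φ : FreeGroup (Fin k) →* Γ)
    (hφ : φ.ker = normalClosure {r | r ∈ L}) (hΓ : Finite (Abelianization (N.map φ)))
    {G : Type*} [Group G] (π : FreeGroup (Fin k) →* G) (hπ : ∀ i, π (sadj L i) = 1) :
    Finite (Abelianization (N.map π)) := by
  classical
  haveI : Finite (FreeGroup (Fin k) ⧸ N) := Subgroup.finite_quotient_of_finiteIndex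
  haveI : Group.FG N := fg_of_index_ne_zero N
  haveI : Group.FG (N.map π) := Group.fg_of_surjective (π.subgroupMap_surjective N)
  refine finite_ab_of_hom fun ψ => ?_
  let χ : N →* Multiplicative ℤ := ψ.comp (π.subgroupMap N)
  have hχ : ∀ n : N, π n = 1 → χ n = 1 := by
    intro n hn
    have : π.subgroupMap N n = 1 := Subtype.ext hn
    show ψ (π.subgroupMap N n) = 1
    rw [this, map_one]
  have h1 := adjoint_trick N χ L hL (by
    intro i g hm
    apply hχ
    show π (g⁻¹ * sadj L i * g) = 1
    rw [map_mul, map_mul, hπ, mul_one, ← map_mul, inv_mul_cancel, map_one])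
  -- `χ` vanishes on the normal closure of the relators
  have hRN : normalClosure {r | r ∈ L} ≤ N := normalClosure_le_normal fun r hr => hL r hr
  have h2 : normalClosure {r | r ∈ L} ≤ (χ.ker).map N.subtype := by
    rw [normalClosure, closure_le]
    intro x hx
    obtain ⟨r, hr, hx⟩ := Group.mem_conjugatesOfSet_iff.1 hx
    obtain ⟨g, rfl⟩ := isConj_iff.1 hx
    have hm : g * r * g⁻¹ ∈ N := (‹N.Normal›).conj_mem r (hL r hr) g
    exact ⟨⟨_, hm⟩, h1 r hr g hm, rfl⟩
  have h3 : (φ.subgroupMap N).ker ≤ χ.ker := by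
    intro n hn
    have h4 : φ (n : FreeGroup (Fin k)) = 1 := congrArg Subtype.val hn
    have h5 : (n : FreeGroup (Fin k)) ∈ normalClosure {r | r ∈ L} := by
      rw [← hφ]; exact h4
    obtain ⟨m, hm, hmn⟩ := h2 h5
    have : m = n := Subtype.ext hmn
    rw [← this]; exact hm
  let χ' : N.map φ →* Multiplicative ℤ :=
    (φ.subgroupMap N).liftOfSurjective (φ.subgroupMap_surjective N) ⟨χ, h3⟩
  have h6 : ∀ n, χ' (φ.subgroupMap N n) = χ n := fun n =>
    MonoidHom.liftOfRightInverse_comp_apply _ _ _ ⟨χ, h3⟩ n
  have h7 : χ' = 1 := hom_of_finite_ab χ'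
  ext y
  obtain ⟨n, rfl⟩ := π.subgroupMap_surjective N y
  have h8 : χ n = 1 := by rw [← h6, h7]; rfl
  show Multiplicative.toAdd (χ n) = _
  rw [h8]
  rfl

/-- All finite index subgroups of the balanced group above the kernel have finite
abelianization. -/
theorem finite_ab_above (L : List (FreeGroup (Fin k)))
    {Γ : Type*} [Group Γ] (φ : FreeGroup (Fin k) →* Γ) (hφs : Function.Surjective φ)
    (hφ : φ.ker = normalClosure {r | r ∈ L})
    (hΓ : ∀ H : Subgroup Γ, H.index ≠ 0 → Finite (Abelianization H))
    {G : Type*} [Group G] (π : FreeGroup (Fin k) →* G) (hπs : Function.Surjective π)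
    (hπ : ∀ i, π (sadj L i) = 1) (H : Subgroup G) (hH : H.index ≠ 0)
    (hle : (normalClosure {r | r ∈ L}).map π ≤ H) : Finite (Abelianization H) := by
  haveI : H.FiniteIndex := ⟨hH⟩
  haveI h0 : ((normalClosure {r | r ∈ L}).map π).Normal :=
    Subgroup.Normal.map inferInstance π hπs
  have h1 : (normalClosure {r | r ∈ L}).map π ≤ H.normalCore := normal_le_normalCore.2 hle
  let N : Subgroup (FreeGroup (Fin k)) := H.normalCore.comap π
  haveI : N.Normal := inferInstance
  haveI : N.FiniteIndex := by
    refine ⟨?_⟩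
    rw [Subgroup.index_comap_of_surjective _ hπs]
    exact Subgroup.FiniteIndex.index_ne_zero
  have h2 : ∀ r ∈ L, r ∈ N := fun r hr => h1 ⟨r, subset_normalClosure hr, rfl⟩
  have h3 : (N.map φ).index ≠ 0 := by
    intro h
    have := Subgroup.index_map_dvd N hφs
    rw [h] at this
    exact (‹N.FiniteIndex›).index_ne_zero (zero_dvd_iff.1 this)
  haveI h4 := finite_ab_adj L N h2 φ hφ (hΓ _ h3) π hπ
  have h5 : N.map π = H.normalCore := Subgroup.map_comap_eq_self_of_surjective hπs _
  haveI : (N.map π).FiniteIndex := by rw [h5]; infer_instance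
  exact finite_ab_of_le (N.map π) H (h5.le.trans (Subgroup.normalCore_le H))

end Pool.Agent.Work.MP_f3c012_al
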