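import Pool.Agent.Work.MP_f3c012_al.C
import Pool.Agent.Work.MP_f3c012_al.AdjB

/-!
# MP_f3c012_al: intersections with subgroups of finite index (helper80)
-/

set_option autoImplicit false
set_option linter.style.haveILetI false

namespace Pool.Agent.Work.MP_f3c012_al

open Subgroup

/-- The intersection of a finitely normally generated subgroup with a normal subgroup of finite
index is finitely normally generated. -/
theorem inf_normalClosure {F : Type*} [Group F] {k : ℕ} (x : Fin k → F)
    (hx : closure (Set.range x) = ⊤) (R : Set F) (hR : R.Finite) (N : Subgroup F) [N.Normal]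
    [N.FiniteIndex] :
    ∃ L : List F, normalClosure {r | r ∈ L} = normalClosure R ⊓ N := by
  classical
  haveI : Finite (F ⧸ N) := Subgroup.finite_quotient_of_finiteIndex
  letI : Fintype (F ⧸ N) := Fintype.ofFinite _
  set B := normalClosure R with hB
  let cl : F →* F ⧸ N := QuotientGroup.mk' N
  -- representatives in `B` of the classes modulo `N` which meet `B`
  have hrep : ∀ t : F ⧸ N, ∃ c : F, c ∈ B ∧ ((∃ b ∈ B, cl b = t) → cl c = t) := by
    intro t
    by_cases h : ∃ b ∈ B, cl b = t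
    · obtain ⟨b, hb, hbt⟩ := h
      exact ⟨b, hb, fun _ => hbt⟩
    · exact ⟨1, B.one_mem, fun h' => absurd h' h⟩
  choose c' hc' hct' using hrep
  let c : F ⧸ N → F := fun t => if t = 1 then 1 else c' t
  have hc : ∀ t, c t ∈ B := by
    intro t
    by_cases h : t = 1
    · simp only [c, h, if_true]; exact B.one_mem
    · simp only [c, h, if_false]; exact hc' t
  have hct : ∀ b ∈ B, cl (c (cl b)) = cl b := by
    intro b hb
    by_cases h : cl b = 1
    · simp only [c, h, if_true]; exact map_one cl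
    · simp only [c, h, if_false]
      exact hct' _ ⟨b, hb, rfl⟩
  have hc1 : c 1 = 1 := by simp [c]
  -- the finite set
  let e : F → F := fun g => g * (c (cl g))⁻¹
  let E : Set F := (e '' R) ∪
    ((Set.range fun ab : (F ⧸ N) × (F ⧸ N) => e (c ab.1 * c ab.2)) ∪
    ((Set.range fun ia : Fin k × (F ⧸ N) => e (x ia.1 * c ia.2 * (x ia.1)⁻¹)) ∪
    (Set.range fun ia : Fin k × (F ⧸ N) => e ((x ia.1)⁻¹ * c ia.2 * x ia.1))))
  have hE : E.Finite := (hR.image _).union ((Set.finite_range _).union
      ((Set.finite_range _).union (Set.finite_range _)))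
  have hmemN : ∀ b ∈ B, e b ∈ B ⊓ N := by
    intro b hb
    refine ⟨B.mul_mem hb (B.inv_mem (hc _)), ?_⟩
    have h1 : cl (e b) = 1 := by
      simp only [e]
      rw [map_mul, map_inv, hct b hb, mul_inv_cancel]
    exact (QuotientGroup.eq_one_iff _).1 h1
  have hconj : ∀ g : F, ∀ b ∈ B, g⁻¹ * b * g ∈ B := by
    intro g b hb
    have := (normalClosure_normal (s := R)).conj_mem b hb g⁻¹
    rwa [inv_inv] at this
  have hEBN : E ⊆ (B ⊓ N : Subgroup F) := by
    rintro g (⟨r, hr, rfl⟩ | ⟨ab, rfl⟩ | ⟨ia, rfl⟩ | ⟨ia, rfl⟩)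
    · exact hmemN r (subset_normalClosure hr)
    · exact hmemN _ (B.mul_mem (hc _) (hc _))
    · exact hmemN _ (normalClosure_normal.conj_mem _ (hc _) _)
    · exact hmemN _ (hconj _ _ (hc _))
  refine ⟨hE.toFinset.toList, ?_⟩
  have hEset : {r | r ∈ hE.toFinset.toList} = E := by
    ext g; simp
  rw [hEset]
  set M := normalClosure E with hM
  have hMB : M ≤ B ⊓ N := normalClosure_le_normal hEBN
  let q : F →* F ⧸ M := QuotientGroup.mk' M
  have hq : ∀ g, e g ∈ M → q g = q (c (cl g)) := by
    intro g hg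
    have h1 : q (e g) = 1 := (QuotientGroup.eq_one_iff _).2 hg
    simp only [e] at h1
    rw [map_mul, map_inv, mul_inv_eq_one] at h1
    exact h1
  have hq1 : ∀ t t' : F ⧸ N, q (c t) * q (c t') = q (c (cl (c t * c t'))) := fun t t' => by
    rw [← map_mul]
    exact hq _ (subset_normalClosure (Or.inr (Or.inl ⟨(t, t'), rfl⟩)))
  have hq2 : ∀ i (t : F ⧸ N), q (x i * c t * (x i)⁻¹) = q (c (cl (x i * c t * (x i)⁻¹))) :=
    fun i t => hq _ (subset_normalClosure (Or.inr (Or.inr (Or.inl ⟨(i, t), rfl⟩))))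
  have hq3 : ∀ i (t : F ⧸ N), q ((x i)⁻¹ * c t * x i) = q (c (cl ((x i)⁻¹ * c t * x i))) :=
    fun i t => hq _ (subset_normalClosure (Or.inr (Or.inr (Or.inr ⟨(i, t), rfl⟩))))
  -- the subgroup `U`
  let U : Subgroup F :=
    { carrier := {u | u ∈ B ∧ q u = q (c (cl u))}
      mul_mem' := by
        rintro u v ⟨hu, hu'⟩ ⟨hv, hv'⟩
        refine ⟨B.mul_mem hu hv, ?_⟩
        rw [map_mul, hu', hv', hq1, map_mul cl (c (cl u)), hct u hu, hct v hv, ← map_mul]
      one_mem' := ⟨B.one_mem, by rw [map_one cl, hc1]⟩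
      inv_mem' := by
        rintro u ⟨hu, hu'⟩
        refine ⟨B.inv_mem hu, ?_⟩
        have h1 := hq1 (cl u⁻¹) (cl u)
        have h2 : cl u⁻¹ * cl u = 1 := by rw [← map_mul, inv_mul_cancel, map_one]
        rw [map_mul cl (c (cl u⁻¹)), hct _ (B.inv_mem hu), hct u hu, h2, hc1, map_one, ← hu',
          mul_eq_one_iff_eq_inv] at h1
        rw [map_inv q u, ← h1] }
  have hUx : ∀ i, ∀ u ∈ U, x i * u * (x i)⁻¹ ∈ U := by
    rintro i u ⟨hu, hu'⟩
    refine ⟨normalClosure_normal.conj_mem _ hu _, ?_⟩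
    have h1 : q (x i * u * (x i)⁻¹) = q (x i * c (cl u) * (x i)⁻¹) := by
      rw [map_mul, map_mul, hu', ← map_mul, ← map_mul]
    rw [h1, hq2]
    congr 2
    rw [map_mul, map_mul, map_mul, map_mul, hct u hu]
  have hUx' : ∀ i, ∀ u ∈ U, (x i)⁻¹ * u * x i ∈ U := by
    rintro i u ⟨hu, hu'⟩
    refine ⟨hconj _ _ hu, ?_⟩
    have h1 : q ((x i)⁻¹ * u * x i) = q ((x i)⁻¹ * c (cl u) * x i) := by
      rw [map_mul, map_mul, hu', ← map_mul, ← map_mul]
    rw [h1, hq3]
    congr 2
    rw [map_mul, map_mul, map_mul, map_mul, hct u hu]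
  have hUn : U.Normal := by
    constructor
    intro u hu g
    have hg : g ∈ closure (Set.range x) := by rw [hx]; trivial
    have key : ∀ g ∈ closure (Set.range x), ∀ u ∈ U, g * u * g⁻¹ ∈ U ∧ g⁻¹ * u * g ∈ U := by
      intro g hg
      induction hg using Subgroup.closure_induction with
      | mem y hy =>
        obtain ⟨i, rfl⟩ := hy
        exact fun u hu => ⟨hUx i u hu, hUx' i u hu⟩
      | one => intro u hu; simpa using hu
      | mul y z _ _ hy hz =>
        intro u hu
        refine ⟨?_, ?_⟩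
        · have h1 := (hy _ (hz u hu).1).1
          have h2 : y * (z * u * z⁻¹) * y⁻¹ = y * z * u * (y * z)⁻¹ := by group
          rwa [h2] at h1
        · have h1 := (hz _ (hy u hu).2).2
          have h2 : z⁻¹ * (y⁻¹ * u * y) * z = (y * z)⁻¹ * u * (y * z) := by group
          rwa [h2] at h1
      | inv y _ hy =>
        intro u hu
        refine ⟨?_, ?_⟩
        · rw [inv_inv]; exact (hy u hu).2
        · rw [inv_inv]; exact (hy u hu).1
    exact (key g hg u hu).1
  have hBU : B ≤ U := by
    refine normalClosure_le_normal fun r hr => ⟨subset_normalClosure hr, ?_⟩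
    exact hq r (subset_normalClosure (Or.inl ⟨r, hr, rfl⟩))
  refine le_antisymm hMB ?_
  rintro g ⟨hgB, hgN⟩
  obtain ⟨_, h1⟩ := hBU hgB
  have h2 : cl g = 1 := (QuotientGroup.eq_one_iff _).2 hgN
  rw [h2, hc1, map_one] at h1
  exact (QuotientGroup.eq_one_iff _).1 h1

/-- A quotient with finite kernel over a group with (FAb) has (FAb), in the form we need. -/
theorem fab_inf {F : Type*} [Group F] [Group.FG F] (B N : Subgroup F) [B.Normal] [N.Normal]
    [N.FiniteIndex]
    {Γ : Type*} [Group Γ] (φ : F →* Γ) (hφs : Function.Surjective φ) (hφ : φ.ker = B)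
    (hΓ : ∀ H : Subgroup Γ, H.index ≠ 0 → Finite (Abelianization H))
    {Γ' : Type*} [Group Γ'] (ψ : F →* Γ') (hψs : Function.Surjective ψ) (hψ : ψ.ker = B ⊓ N)
    (H : Subgroup Γ') (hH : H.index ≠ 0) : Finite (Abelianization H) := by
  classical
  haveI : H.FiniteIndex := ⟨hH⟩
  let V : Subgroup F := H.comap ψ
  haveI hV : V.FiniteIndex := by
    refine ⟨?_⟩
    rw [Subgroup.index_comap_of_surjective _ hψs]
    exact hH
  haveI : Group.FG V := fg_of_index_ne_zero V
  have hVH : V.map ψ = H := Subgroup.map_comap_eq_self_of_surjective hψs _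
  haveI : Group.FG (V.map ψ) := Group.fg_of_surjective (ψ.subgroupMap_surjective V)
  have hmain : Finite (Abelianization (V.map ψ)) := by
    refine finite_ab_of_hom fun ζ => ?_
    let χ : V →* Multiplicative ℤ := ζ.comp (ψ.subgroupMap V)
    have hχ : ∀ n : V, ψ n = 1 → χ n = 1 := by
      intro n hn
      have : ψ.subgroupMap V n = 1 := Subtype.ext hn
      show ζ (ψ.subgroupMap V n) = 1
      rw [this, map_one]
    have h3 : (φ.subgroupMap V).ker ≤ χ.ker := by
      intro n hn
      have h4 : φ (n : F) = 1 := congrArg Subtype.val hn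
      have h5 : (n : F) ∈ B := by rw [← hφ]; exact h4
      -- a power lies in `N`
      have h6 : (n : F) ^ N.index ∈ N := by
        have h7 : (QuotientGroup.mk' N (n : F)) ^ Nat.card (F ⧸ N) = 1 := pow_card_eq_one'
        rw [← map_pow] at h7
        exact (QuotientGroup.eq_one_iff _).1 h7
      have h8 : ψ ((n ^ N.index : V) : F) = 1 := by
        have : (n : F) ^ N.index ∈ ψ.ker := by rw [hψ]; exact ⟨B.pow_mem h5 _, h6⟩
        exact this
      have h9 := hχ _ h8
      rw [map_pow] at h9
      have h10 : N.index • Multiplicative.toAdd (χ n) = 0 := h9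
      rw [smul_eq_zero] at h10
      rcases h10 with h10 | h10
      · exact absurd h10 Subgroup.FiniteIndex.index_ne_zero
      · exact h10
    have h3' : (V.map φ).index ≠ 0 := by
      intro h
      have := Subgroup.index_map_dvd V hφs
      rw [h] at this
      exact hV.index_ne_zero (zero_dvd_iff.1 this)
    haveI := hΓ _ h3'
    let χ' : V.map φ →* Multiplicative ℤ :=
      (φ.subgroupMap V).liftOfSurjective (φ.subgroupMap_surjective V) ⟨χ, h3⟩
    have h6 : ∀ n, χ' (φ.subgroupMap V n) = χ n := fun n =>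
      MonoidHom.liftOfRightInverse_comp_apply _ _ _ ⟨χ, h3⟩ n
    have h7 : χ' = 1 := hom_of_finite_ab χ'
    ext y
    obtain ⟨n, rfl⟩ := ψ.subgroupMap_surjective V y
    have h8 : χ n = 1 := by rw [← h6, h7]; rfl
    show Multiplicative.toAdd (χ n) = _
    rw [h8]
    rfl
  rw [hVH] at hmain
  exact hmain

end Pool.Agent.Work.MP_f3c012_al
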