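import Pool.Agent.Work.MP_f3c012_al.B

/-!
# MP_f3c012_al: exact Zassenhaus degrees (helper66)
-/

set_option autoImplicit false

namespace Pool.Agent.Work.MP_f3c012_al

open Subgroup

section

variable (p : ℕ) [Fact p.Prime]

/-- The unit `1 + X`. -/
noncomputable def uX : (PowerSeries (ZMod p))ˣ :=
  (PowerSeries.isUnit_iff_constantCoeff.2 (by simp : IsUnit (PowerSeries.constantCoeff
    (R := ZMod p) (1 + PowerSeries.X)))).unit

theorem uX_val : (uX p : PowerSeries (ZMod p)) = 1 + PowerSeries.X := rfl

theorem uX_pow_ne (n : ℕ) (hn : 0 < n) : uX p ^ n ≠ 1 := by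
  intro h
  have h1 : ((uX p ^ n : (PowerSeries (ZMod p))ˣ) : PowerSeries (ZMod p)) = 1 := by
    rw [h]; rfl
  rw [Units.val_pow_eq_pow_val, uX_val] at h1
  have h2 : ((1 + Polynomial.X : Polynomial (ZMod p)) ^ n : PowerSeries (ZMod p)) =
      ((1 : Polynomial (ZMod p)) : PowerSeries (ZMod p)) := by
    push_cast
    exact h1
  have h3 : (1 + Polynomial.X : Polynomial (ZMod p)) ^ n = 1 := by
    apply Polynomial.coe_injective
    push_cast
    exact h1
  have h4 : ((1 + Polynomial.X : Polynomial (ZMod p)) ^ n).natDegree = n := by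
    rw [add_comm, show (1 : Polynomial (ZMod p)) = Polynomial.C 1 from rfl,
      Polynomial.natDegree_pow, Polynomial.natDegree_X_add_C, mul_one]
  rw [h3, Polynomial.natDegree_one] at h4
  omega

theorem uX_zpow_ne (n : ℤ) (hn : n ≠ 0) : uX p ^ n ≠ 1 := by
  intro h
  rcases Int.natAbs_eq n with h1 | h1
  · rw [h1, zpow_natCast] at h
    exact uX_pow_ne p _ (by omega) h
  · rw [h1, zpow_neg, zpow_natCast, inv_eq_one] at h
    exact uX_pow_ne p _ (by omega) h

end

/-- The exponent sum of the `j`-th generator. -/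
def expo (d : ℕ) (v : Fin d → ℤ) : FreeGroup (Fin d) →* Multiplicative ℤ :=
  FreeGroup.lift fun i => Multiplicative.ofAdd (v i)

section

variable (p : ℕ) [Fact p.Prime] (d : ℕ)

/-- A character of the free group into the units of power series. -/
noncomputable def chi (v : Fin d → ℤ) : FreeGroup (Fin d) →* (PowerSeries (ZMod p))ˣ :=
  (zpowersHom _ (uX p)).comp (expo d v)

theorem chi_ne (v : Fin d → ℤ) (r : FreeGroup (Fin d)) (h : expo d v r ≠ 1) :
    chi p d v r ≠ 1 := by
  unfold chi
  rw [MonoidHom.comp_apply, zpowersHom_apply]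
  apply uX_zpow_ne
  intro h0
  exact h h0

theorem uX_sub (n : ℤ) : (PowerSeries.X : PowerSeries (ZMod p)) ∣
    ((uX p ^ n : (PowerSeries (ZMod p))ˣ) : PowerSeries (ZMod p)) - 1 := by
  rw [PowerSeries.X_dvd_iff, map_sub, map_one]
  have h1 : Units.map (PowerSeries.constantCoeff (R := ZMod p)).toMonoidHom (uX p) = 1 := by
    ext
    simp [uX_val]
  have h2 := map_zpow (Units.map (PowerSeries.constantCoeff (R := ZMod p)).toMonoidHom) (uX p) n
  rw [h1, one_zpow] at h2
  have h3 := congrArg Units.val h2
  simp only [Units.coe_map, Units.val_one] at h3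
  rw [sub_eq_zero]
  exact h3

/-- The algebra homomorphism induced by `chi`. -/
noncomputable def Theta (v : Fin d → ℤ) :
    MonoidAlgebra (ZMod p) (FreeGroup (Fin d)) →ₐ[ZMod p] PowerSeries (ZMod p) :=
  MonoidAlgebra.lift (ZMod p) _ _ ((Units.coeHom _).comp (chi p d v))

theorem Theta_of (v : Fin d → ℤ) (g : FreeGroup (Fin d)) :
    Theta p d v (MonoidAlgebra.of (ZMod p) _ g) = (chi p d v g : PowerSeries (ZMod p)) := by
  unfold Theta
  rw [MonoidAlgebra.lift_of]
  rfl

theorem Theta_aug (v : Fin d → ℤ) (n : ℕ) : ∀ a ∈ aug p (FreeGroup (Fin d)) ^ (n + 1),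
    (PowerSeries.X : PowerSeries (ZMod p)) ^ (n + 1) ∣ Theta p d v a := by
  have h1 : ∀ a ∈ aug p (FreeGroup (Fin d)), (PowerSeries.X : PowerSeries (ZMod p)) ∣
      Theta p d v a := by
    intro a ha
    unfold aug at ha
    induction ha using Submodule.span_induction with
    | mem x hx =>
      obtain ⟨g, rfl⟩ := hx
      rw [map_sub, map_one, Theta_of]
      unfold chi
      rw [MonoidHom.comp_apply, zpowersHom_apply]
      exact uX_sub p _
    | zero => rw [map_zero]; exact dvd_zero _
    | add x y _ _ hx hy => rw [map_add]; exact dvd_add hx hy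
    | smul c x _ hx =>
      rw [map_smul]
      exact (hx.mul_left (PowerSeries.C c)).trans (by
        rw [PowerSeries.smul_eq_C_mul])
  induction n with
  | zero =>
    intro a ha
    rw [zero_add, pow_one] at ha ⊢
    exact h1 a ha
  | succ n ih =>
    intro a ha
    rw [pow_succ] at ha
    refine Submodule.mul_induction_on ha (fun x hx y hy => ?_) (fun x y hx hy => ?_)
    · rw [map_mul, pow_succ]
      exact mul_dvd_mul (ih x hx) (h1 y hy)
    · rw [map_add]
      exact dvd_add hx hy

/-- An element with a non-zero exponent sum has a finite Zassenhaus degree. -/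
theorem exists_not_mem (v : Fin d → ℤ) (r : FreeGroup (Fin d)) (h : expo d v r ≠ 1) :
    ∃ n : ℕ, MonoidAlgebra.of (ZMod p) _ r - 1 ∉ aug p (FreeGroup (Fin d)) ^ (n + 1) := by
  by_contra hcon
  push Not at hcon
  have h1 : Theta p d v (MonoidAlgebra.of (ZMod p) _ r - 1) = 0 := by
    ext n
    have h2 := Theta_aug p d v n _ (hcon n)
    rw [PowerSeries.X_pow_dvd_iff] at h2
    rw [h2 n (by omega)]
    simp
  rw [map_sub, map_one, Theta_of, sub_eq_zero] at h1
  exact chi_ne p d v r h (Units.ext h1)

/-- The exact Zassenhaus degree. -/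
theorem exists_deg (v : Fin d → ℤ) (r : FreeGroup (Fin d)) (h : expo d v r ≠ 1) (m : ℕ)
    (hm : MonoidAlgebra.of (ZMod p) _ r - 1 ∈ aug p (FreeGroup (Fin d)) ^ (m + 1)) :
    ∃ k : ℕ, m + 1 ≤ k ∧ MonoidAlgebra.of (ZMod p) _ r - 1 ∈ aug p (FreeGroup (Fin d)) ^ k ∧
      MonoidAlgebra.of (ZMod p) _ r - 1 ∉ aug p (FreeGroup (Fin d)) ^ (k + 1) := by
  classical
  have hex := exists_not_mem p d v r h
  let n := Nat.find hex
  have hn : MonoidAlgebra.of (ZMod p) _ r - 1 ∉ aug p (FreeGroup (Fin d)) ^ (n + 1) :=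
    Nat.find_spec hex
  have hmn : m + 1 ≤ n := by
    by_contra hlt
    push Not at hlt
    exact hn (pow_le_of_le p _ (n + 1) (m + 1) (by omega) (by omega) hm)
  refine ⟨n, hmn, ?_, hn⟩
  have h2 : ¬ (MonoidAlgebra.of (ZMod p) _ r - 1 ∉ aug p (FreeGroup (Fin d)) ^ ((n - 1) + 1)) :=
    Nat.find_min hex (by omega : n - 1 < n)
  push Not at h2
  rwa [show n - 1 + 1 = n by omega] at h2

end

/-- If the quotient of the free group by `d` relators has finite abelianization, every relator
has a non-zero exponent sum. -/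
theorem expo_ne (d : ℕ) (r : Fin d → FreeGroup (Fin d))
    [Finite (Abelianization (PresentedGroup (Set.range r)))] (i : Fin d) :
    ∃ v : Fin d → ℤ, expo d v (r i) ≠ 1 := by
  classical
  by_contra hcon
  push Not at hcon
  let E : Matrix (Fin d) (Fin d) ℤ := fun a b =>
    Multiplicative.toAdd (expo d (Pi.single b 1) (r a))
  have hrow : ∀ b, E i b = 0 := fun b => by
    change Multiplicative.toAdd (expo d (Pi.single b 1) (r i)) = 0
    rw [hcon]
    rfl
  have hdet : E.det = 0 := Matrix.det_eq_zero_of_row_eq_zero i hrow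
  obtain ⟨v, hv0, hv⟩ := Matrix.exists_mulVec_eq_zero_iff.2 hdet
  -- linearity of the exponent sum
  have hlin : ∀ g, Multiplicative.toAdd (expo d v g) =
      ∑ b, Multiplicative.toAdd (expo d (Pi.single b 1) g) * v b := by
    intro g
    let Φ : FreeGroup (Fin d) →* Multiplicative ℤ :=
      { toFun := fun g => Multiplicative.ofAdd
          (∑ b, Multiplicative.toAdd (expo d (Pi.single b 1) g) * v b)
        map_one' := by simp
        map_mul' := fun g h => by
          rw [← ofAdd_add, ← Finset.sum_add_distrib]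
          congr 1
          refine Finset.sum_congr rfl fun b _ => ?_
          rw [map_mul, toAdd_mul]
          ring }
    have : expo d v = Φ := by
      ext j
      simp only [expo, FreeGroup.lift_apply_of]
      change v j = ∑ b, Multiplicative.toAdd (expo d (Pi.single b 1) (FreeGroup.of j)) * v b
      simp [expo, Pi.single_apply]
    rw [this]
    rfl
  have hkill : ∀ x ∈ Set.range r, expo d v x = 1 := by
    rintro _ ⟨a, rfl⟩
    have h1 := congrFun hv a
    have h2 := hlin (r a)
    have h3 : Multiplicative.toAdd (expo d v (r a)) = 0 := by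
      rw [h2]
      simpa [Matrix.mulVec, dotProduct, E] using h1
    exact h3
  -- the induced homomorphism
  have hk2 : ∀ x ∈ Set.range r, FreeGroup.lift (fun i => Multiplicative.ofAdd (v i)) x = 1 :=
    hkill
  let f : PresentedGroup (Set.range r) →* Multiplicative ℤ := PresentedGroup.toGroup hk2
  let fa : Abelianization (PresentedGroup (Set.range r)) →* Multiplicative ℤ :=
    Abelianization.lift f
  obtain ⟨j, hj⟩ : ∃ j, v j ≠ 0 := by
    by_contra h0
    push Not at h0
    exact hv0 (funext h0)
  let x : Abelianization (PresentedGroup (Set.range r)) :=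
    Abelianization.of (PresentedGroup.of j)
  have hx : fa x = Multiplicative.ofAdd (v j) := by
    simp only [fa, x, Abelianization.lift_apply_of, f, PresentedGroup.toGroup.of]
  obtain ⟨n, hn, hxn⟩ := isOfFinOrder_iff_pow_eq_one.1 (isOfFinOrder_of_finite x)
  have h5 : fa x ^ n = 1 := by rw [← map_pow, hxn, map_one]
  rw [hx, ← ofAdd_nsmul] at h5
  have h6 : n • v j = 0 := h5
  rw [smul_eq_zero] at h6
  rcases h6 with h6 | h6
  · omega
  · exact hj h6

end Pool.Agent.Work.MP_f3c012_al
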