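import Pool.Agent.Work.MP_f3c012_al.R

/-!
# MP_f3c012_al: groups with `d` relators and finite derived quotients (helper81)
-/

set_option autoImplicit false
set_option linter.unusedSectionVars false
set_option linter.style.haveILetI false

namespace Pool.Agent.Work.MP_f3c012_al

open Subgroup

section

variable {F : Type} [Group F] (K : Subgroup F) [K.Normal] [Finite (F ⧸ K)]

open Classical in
/-- The derivation `F → K^ab`. -/
noncomputable def dl (g : F) : Abelianization K :=
  letI := Fintype.ofFinite (F ⧸ K)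
  ∏ t : F ⧸ K, Abelianization.of ⟨ee K g t, ee_mem K g t⟩

theorem dl_mul (g h : F) : dl K (g * h) = cj K g (dl K h) * dl K g := by
  classical
  unfold dl
  letI := Fintype.ofFinite (F ⧸ K)
  rw [map_prod]
  have e1 : ∏ t : F ⧸ K, Abelianization.of (⟨ee K g t, ee_mem K g t⟩ : K) =
      ∏ t : F ⧸ K, Abelianization.of (⟨ee K g (h • t), ee_mem K g _⟩ : K) :=
    (Equiv.prod_comp (MulAction.toPerm h : Equiv.Perm (F ⧸ K))
      (fun t => Abelianization.of (⟨ee K g t, ee_mem K g t⟩ : K))).symm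
  rw [e1, ← Finset.prod_mul_distrib]
  refine Finset.prod_congr rfl fun t _ => ?_
  rw [cj_of, ← map_mul]
  congr 1
  apply Subtype.ext
  simp only [ee, Subgroup.coe_mul, mul_smul]
  group

theorem dl_one : dl K 1 = 1 := by
  have h := dl_mul K 1 1
  rw [mul_one, cj_one, MonoidHom.id_apply] at h
  simpa using h

theorem dl_of_mem (k : K) : dl K k = Abelianization.of k ^ Nat.card (F ⧸ K) := by
  classical
  unfold dl
  letI := Fintype.ofFinite (F ⧸ K)
  have : ∀ t : F ⧸ K, Abelianization.of (⟨ee K (k : F) t, ee_mem K _ t⟩ : K) =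
      Abelianization.of k := by
    intro t
    congr 1
    apply Subtype.ext
    have h1 : ((k : F) • t : F ⧸ K) = t := by
      rw [← QuotientGroup.out_eq' t]
      change (((k : F) * t.out : F) : F ⧸ K) = _
      apply Eq.symm
      rw [QuotientGroup.eq]
      have := (‹K.Normal›).conj_mem (k : F) k.2 (t.out)⁻¹
      simpa [mul_assoc] using this
    simp only [ee]
    rw [h1]
    group
  rw [Finset.prod_congr rfl fun t _ => this t, Finset.prod_const, Finset.card_univ,
    Nat.card_eq_fintype_card]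

/-- The values of the derivation at the generators generate. -/
theorem span_dl {d : ℕ} (x : Fin d → F) (hx : closure (Set.range x) = ⊤) :
    Submodule.span (MonoidAlgebra ℚ (F ⧸ K)) (Set.range fun i => ia K (dl K (x i))) = ⊤ := by
  set W := Submodule.span (MonoidAlgebra ℚ (F ⧸ K)) (Set.range fun i => ia K (dl K (x i)))
    with hW
  have key : ∀ g : F, ia K (dl K g) ∈ W := by
    intro g
    have hg : g ∈ closure (Set.range x) := by rw [hx]; trivial
    induction hg using Subgroup.closure_induction with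
    | mem y hy =>
      obtain ⟨i, rfl⟩ := hy
      exact Submodule.subset_span ⟨i, rfl⟩
    | one => rw [dl_one, ia_one]; exact W.zero_mem
    | mul y z _ _ hy hz =>
      rw [dl_mul, ia_mul, ← of_smul_ia]
      exact W.add_mem (W.smul_mem _ hz) hy
    | inv y _ hy =>
      have h1 := dl_mul K y⁻¹ y
      rw [inv_mul_cancel, dl_one] at h1
      have h2 : dl K y⁻¹ = (cj K y⁻¹ (dl K y))⁻¹ := (inv_eq_of_mul_eq_one_right h1.symm).symm
      rw [h2, ia_inv, ← of_smul_ia]
      exact W.neg_mem (W.smul_mem _ hy)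
  apply eq_top_of_ia
  intro a
  obtain ⟨k, rfl⟩ := QuotientGroup.mk'_surjective _ a
  have h1 := key k
  rw [dl_of_mem, ia_pow] at h1
  have hc : (Nat.card (F ⧸ K) : ℚ) ≠ 0 := Nat.cast_ne_zero.2 Nat.card_pos.ne'
  have h2 := W.smul_of_tower_mem ((Nat.card (F ⧸ K) : ℚ)⁻¹) h1
  rw [← Nat.cast_smul_eq_nsmul ℚ, smul_smul, inv_mul_cancel₀ hc, one_smul] at h2
  exact h2

/-- The elements of `K` with class in a submodule form a normal subgroup. -/
def jj (W : Submodule (MonoidAlgebra ℚ (F ⧸ K)) (QM K)) : Subgroup F where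
  carrier := {g | ∃ h : g ∈ K, ia K (Abelianization.of ⟨g, h⟩) ∈ W}
  mul_mem' := by
    rintro a b ⟨ha, ha'⟩ ⟨hb, hb'⟩
    refine ⟨K.mul_mem ha hb, ?_⟩
    have e : (⟨a * b, K.mul_mem ha hb⟩ : K) = ⟨a, ha⟩ * ⟨b, hb⟩ := rfl
    rw [e, map_mul, ia_mul]
    exact W.add_mem ha' hb'
  one_mem' := ⟨K.one_mem, by
    have e : (⟨1, K.one_mem⟩ : K) = 1 := rfl
    rw [e, map_one, ia_one]
    exact W.zero_mem⟩
  inv_mem' := by
    rintro a ⟨ha, ha'⟩
    refine ⟨K.inv_mem ha, ?_⟩
    have e : (⟨a⁻¹, K.inv_mem ha⟩ : K) = ⟨a, ha⟩⁻¹ := rfl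
    rw [e, map_inv, ia_inv]
    exact W.neg_mem ha'

theorem mem_jj {W : Submodule (MonoidAlgebra ℚ (F ⧸ K)) (QM K)} {g : F} :
    g ∈ jj K W ↔ ∃ h : g ∈ K, ia K (Abelianization.of ⟨g, h⟩) ∈ W := Iff.rfl

instance jj_normal (W : Submodule (MonoidAlgebra ℚ (F ⧸ K)) (QM K)) : (jj K W).Normal := by
  constructor
  rintro a ⟨ha, ha'⟩ g
  refine ⟨(‹K.Normal›).conj_mem _ ha g, ?_⟩
  have h := W.smul_mem (MonoidAlgebra.of ℚ (F ⧸ K) (g : F ⧸ K)) ha'
  rw [of_smul_ia, cj_of] at h
  exact h

/-- The main step. -/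
theorem step [Group.FG F] {d : ℕ} (x : Fin d → F) (hx : closure (Set.range x) = ⊤)
    (S : Subgroup F) [S.Normal] (hSK : S ≤ K) (r : Fin d → F)
    (hr : S ⊔ normalClosure (Set.range r) = K) :
    ∃ s : Fin d → F, (∀ i, s i ∈ S) ∧ ∀ (G : Type) [Group G] (π : F →* G),
      (∀ i, π (r i * s i) = 1) → Finite (Abelianization (K.map π)) := by
  classical
  have hrK : ∀ i, r i ∈ K := fun i => by
    rw [← hr]
    exact (le_sup_right : normalClosure (Set.range r) ≤ _) (subset_normalClosure ⟨i, rfl⟩)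
  haveI : K.FiniteIndex := Subgroup.finiteIndex_of_finite_quotient
  haveI : Group.FG K := fg_of_index_ne_zero K
  haveI : Group.FG (Abelianization K) :=
    Group.fg_of_surjective (f := Abelianization.of) (QuotientGroup.mk'_surjective _)
  haveI : AddGroup.FG (Additive (Abelianization K)) := GroupFG.iff_add_fg.1 inferInstance
  haveI : Module.Finite ℤ (Additive (Abelianization K)) :=
    Module.Finite.iff_addGroup_fg.2 inferInstance
  haveI : Module.Finite ℚ (QA K) := inferInstance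
  let ρ : Fin d → QM K := fun i => ia K (Abelianization.of ⟨r i, hrK i⟩)
  have hspan : Submodule.span (MonoidAlgebra ℚ (F ⧸ K)) (Set.range ρ) ⊔ sat K S hSK = ⊤ := by
    apply eq_top_of_ia
    intro a
    obtain ⟨k, rfl⟩ := QuotientGroup.mk'_surjective _ a
    have h1 : K ≤ jj K (Submodule.span (MonoidAlgebra ℚ (F ⧸ K)) (Set.range ρ) ⊔ sat K S hSK) := by
      conv_lhs => rw [← hr]
      refine sup_le ?_ (normalClosure_le_normal ?_)
      · intro s hs
        refine ⟨hSK hs, Submodule.mem_sup_right ?_⟩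
        exact ⟨1, one_ne_zero, s, hs, one_smul _ _⟩
      · rintro _ ⟨i, rfl⟩
        exact ⟨hrK i, Submodule.mem_sup_left (Submodule.subset_span ⟨i, rfl⟩)⟩
    obtain ⟨_, h2⟩ := h1 k.2
    exact h2
  let L : AddSubgroup (QM K) :=
    { carrier := {y | ∃ s : F, ∃ hs : s ∈ S, y = ia K (Abelianization.of ⟨s, hSK hs⟩)}
      add_mem' := by
        rintro y z ⟨s, hs, rfl⟩ ⟨t, ht, rfl⟩
        refine ⟨s * t, S.mul_mem hs ht, ?_⟩
        have e : (⟨s * t, hSK (S.mul_mem hs ht)⟩ : K) = ⟨s, hSK hs⟩ * ⟨t, hSK ht⟩ := rfl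
        rw [e, map_mul, ia_mul]
      zero_mem' := ⟨1, S.one_mem, by
        have e : (⟨1, hSK S.one_mem⟩ : K) = 1 := rfl
        rw [e, map_one, ia_one]⟩
      neg_mem' := by
        rintro y ⟨s, hs, rfl⟩
        refine ⟨s⁻¹, S.inv_mem hs, ?_⟩
        have e : (⟨s⁻¹, hSK (S.inv_mem hs)⟩ : K) = ⟨s, hSK hs⟩⁻¹ := rfl
        rw [e, map_inv, ia_inv] }
  obtain ⟨σ, hσ, hgen⟩ := lift_gen (fun i => ia K (dl K (x i))) ρ (span_dl K x hx) (sat K S hSK)
    hspan L (by
      rintro y ⟨s, hs, rfl⟩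
      exact ⟨1, one_ne_zero, s, hs, one_smul _ _⟩) (by
      rintro y ⟨n, hn, s, hs, h⟩
      exact ⟨n, hn, s, hs, h⟩)
  choose s hs hσs using hσ
  refine ⟨s, hs, fun G _ π hπ => ?_⟩
  have hrsK : ∀ i, r i * s i ∈ K := fun i => K.mul_mem (hrK i) (hSK (hs i))
  have hNK : normalClosure (Set.range fun i => r i * s i) ≤ K := by
    apply normalClosure_le_normal
    rintro _ ⟨i, rfl⟩
    exact hrsK i
  have hsat : sat K (normalClosure (Set.range fun i => r i * s i)) hNK = ⊤ := by
    rw [eq_top_iff, ← hgen, Submodule.span_le]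
    rintro _ ⟨i, rfl⟩
    refine ⟨1, one_ne_zero, r i * s i, subset_normalClosure ⟨i, rfl⟩, ?_⟩
    rw [one_smul, Pi.add_apply, hσs i]
    have e : (⟨r i * s i, hrsK i⟩ : K) = ⟨r i, hrK i⟩ * ⟨s i, hSK (hs i)⟩ := rfl
    rw [e, map_mul, ia_mul]
  have hπN : ∀ a ∈ normalClosure (Set.range fun i => r i * s i), π a = 1 := by
    have h1 : normalClosure (Set.range fun i => r i * s i) ≤ π.ker := by
      apply normalClosure_le_normal
      rintro _ ⟨i, rfl⟩
      exact hπ i
    exact fun a ha => h1 ha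
  haveI : Group.FG (K.map π) := Group.fg_of_surjective (π.subgroupMap_surjective K)
  haveI : Group.FG (Abelianization (K.map π)) :=
    Group.fg_of_surjective (f := Abelianization.of) (QuotientGroup.mk'_surjective _)
  apply CommGroup.finite_of_fg_isMulTorsion
  intro y
  obtain ⟨y, rfl⟩ := QuotientGroup.mk'_surjective _ y
  obtain ⟨k, rfl⟩ := π.subgroupMap_surjective K y
  have h1 : ia K (Abelianization.of k) ∈
      sat K (normalClosure (Set.range fun i => r i * s i)) hNK := by
    rw [hsat]; trivial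
  obtain ⟨n, hn, a, ha, h2⟩ := h1
  have h3 : ia K (Abelianization.of k ^ n * (Abelianization.of ⟨a, hNK ha⟩)⁻¹) = 0 := by
    rw [ia_mul, ia_inv, ia_pow, h2, add_neg_cancel]
  obtain ⟨c, hc, h4⟩ := ia_zero K h3
  let mpi : Abelianization K →* Abelianization (K.map π) := Abelianization.map (π.subgroupMap K)
  have h5 := congrArg mpi h4
  have h6 : mpi (Abelianization.of ⟨a, hNK ha⟩) = 1 := by
    show Abelianization.map (π.subgroupMap K) _ = 1
    rw [Abelianization.map_of]
    have e : π.subgroupMap K ⟨a, hNK ha⟩ = 1 := by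
      apply Subtype.ext
      exact hπN a ha
    rw [e, map_one]
  rw [map_pow, map_mul, map_pow, map_inv, h6, inv_one, mul_one, map_one, ← pow_mul] at h5
  have h7 : mpi (Abelianization.of k) = Abelianization.of (π.subgroupMap K k) :=
    Abelianization.map_of _ _
  rw [h7] at h5
  have h8 : IsOfFinOrder (Abelianization.of (π.subgroupMap K k)) :=
    isOfFinOrder_iff_pow_eq_one.2 ⟨n * c, Nat.pos_of_ne_zero (mul_ne_zero hn hc), h5⟩
  exact h8

end

end Pool.Agent.Work.MP_f3c012_al
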