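import Pool.Agent.Work.MP_f3c012_al.C
import Pool.Agent.Work.MP_f3c012_al.T

/-!
# MP_f3c012_al: the tower (helper81)
-/

set_option autoImplicit false
set_option linter.unusedSectionVars false
set_option linter.style.haveILetI false

namespace Pool.Agent.Work.MP_f3c012_al

open Subgroup

/-- The intersection of `[H, H]` and of all subgroups of `H` of index at most `f [G : H]`. -/
def VV {G : Type} [Group G] (f : ℕ → ℕ) (H : Subgroup G) : Subgroup G :=
  ⁅H, H⁆ ⊓ sInf {B | B ≤ H ∧ B.relIndex H ≠ 0 ∧ B.relIndex H ≤ f H.index}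

theorem VV_mono {G : Type} [Group G] {f : ℕ → ℕ} (hf : Monotone f) {H H' : Subgroup G}
    (h : H' ≤ H) (h0 : H'.index ≠ 0) : VV f H' ≤ VV f H := by
  refine inf_le_inf (commutator_mono h h) ?_
  refine le_sInf ?_
  rintro B ⟨_, hB0, hBN⟩
  have hi : f H.index ≤ f H'.index :=
    hf (Nat.le_of_dvd (Nat.pos_of_ne_zero h0) (index_dvd_of_le h))
  have h1 : B ⊓ H' ∈ {B : Subgroup G | B ≤ H' ∧ B.relIndex H' ≠ 0 ∧
      B.relIndex H' ≤ f H'.index} := by
    refine ⟨inf_le_right, ?_, ?_⟩
    · rw [inf_relIndex_right]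
      exact fun h0 => hB0 (relIndex_eq_zero_of_le_right h h0)
    · rw [inf_relIndex_right]
      exact ((relIndex_le_of_le_right h hB0).trans hBN).trans hi
  exact (sInf_le h1).trans inf_le_left

/-- The derived subgroup of a subgroup of finite index with finite abelianization. -/
theorem comm_index {G : Type} [Group G] (H : Subgroup G) (h : H.index ≠ 0)
    [Finite (Abelianization H)] : (⁅H, H⁆).index ≠ 0 := by
  have e : ⁅H, H⁆ = (_root_.commutator H).map H.subtype := by
    rw [_root_.commutator_def, map_commutator, ← MonoidHom.range_eq_map, Subgroup.range_subtype]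
  rw [e, Subgroup.index_map_subtype]
  refine mul_ne_zero ?_ h
  have h1 : (_root_.commutator H).index = Nat.card (Abelianization H) := rfl
  rw [h1]
  exact Nat.card_pos.ne'

/-- All subgroups of small index of a finite index subgroup contain a finite index subgroup. -/
theorem exists_ZZ {F : Type} [Group F] [Group.FG F] (K : Subgroup F) (hK : K.index ≠ 0) (N : ℕ) :
    ∃ Z : Subgroup F, Z.Normal ∧ Z.index ≠ 0 ∧
      ∀ B : Subgroup F, B.relIndex K ≠ 0 → B.relIndex K ≤ N → Z ≤ B := by
  haveI : K.FiniteIndex := ⟨hK⟩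
  haveI : Group.FG K := fg_of_index_ne_zero K
  obtain ⟨α, hα, φ₀, hφ₀⟩ := Group.fg_iff_exists_freeGroup_hom_surjective_finite.1
    (inferInstance : Group.FG K)
  obtain ⟨n, ⟨e⟩⟩ := Finite.exists_equiv_fin α
  let φ : FreeGroup (Fin n) →* K := φ₀.comp (FreeGroup.freeGroupCongr e).symm.toMonoidHom
  have hφ : Function.Surjective φ := hφ₀.comp (FreeGroup.freeGroupCongr e).symm.surjective
  haveI := KN_finiteIndex n N
  have h1 : ((KN n N).map φ).index ≠ 0 := by
    intro h0
    have := Subgroup.index_map_dvd (KN n N) hφ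
    rw [h0] at this
    exact (KN_finiteIndex n N).index_ne_zero (zero_dvd_iff.1 this)
  have h2 : (((KN n N).map φ).map K.subtype).index ≠ 0 := by
    rw [Subgroup.index_map_subtype]
    exact mul_ne_zero h1 hK
  haveI : (((KN n N).map φ).map K.subtype).FiniteIndex := ⟨h2⟩
  refine ⟨(((KN n N).map φ).map K.subtype).normalCore, inferInstance,
    Subgroup.FiniteIndex.index_ne_zero, fun B hB0 hBN => ?_⟩
  refine (Subgroup.normalCore_le _).trans ?_
  have h3 : ((B.subgroupOf K).comap φ).index = B.relIndex K :=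
    Subgroup.index_comap_of_surjective (B.subgroupOf K) hφ
  have h4 := KN_le n N ((B.subgroupOf K).comap φ) (by rw [h3]; exact hB0)
    (by rw [h3]; exact hBN)
  rw [Subgroup.map_le_iff_le_comap, Subgroup.map_le_iff_le_comap]
  exact h4

section

variable {F : Type} [Group F] {d : ℕ}

/-- Changing the relators inside `T`. -/
theorem sup_nc {T : Subgroup F} [T.Normal] {r s : Fin d → F} (hs : ∀ i, s i ∈ T) :
    T ⊔ normalClosure (Set.range fun i => r i * s i) = T ⊔ normalClosure (Set.range r) := by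
  apply le_antisymm
  · refine sup_le le_sup_left (normalClosure_le_normal ?_)
    rintro _ ⟨i, rfl⟩
    exact Subgroup.mul_mem _ ((le_sup_right : normalClosure (Set.range r) ≤ _)
      (subset_normalClosure ⟨i, rfl⟩)) ((le_sup_left : T ≤ _) (hs i))
  · refine sup_le le_sup_left (normalClosure_le_normal ?_)
    rintro _ ⟨i, rfl⟩
    have h1 : r i = (r i * s i) * (s i)⁻¹ := by group
    show r i ∈ T ⊔ normalClosure (Set.range fun i => r i * s i)
    rw [h1]
    exact Subgroup.mul_mem _
      ((le_sup_right : normalClosure (Set.range fun i => r i * s i) ≤ _)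
        (subset_normalClosure ⟨i, rfl⟩)) ((le_sup_left : T ≤ _) (T.inv_mem (hs i)))

/-- Chains of normal subgroups adapted to the relators. -/
inductive Chain (K₀ : Subgroup F) (f : ℕ → ℕ) (r : Fin d → F) : ℕ → Subgroup F → Prop
  | zero : Chain K₀ f r 0 K₀
  | succ {j : ℕ} {T T' : Subgroup F} (h : Chain K₀ f r j T') (hn : T.Normal)
      (h1 : T ≤ ⁅T', T'⁆)
      (h2 : ∀ B : Subgroup F, B.relIndex (T' ⊔ normalClosure (Set.range r)) ≠ 0 →
        B.relIndex (T' ⊔ normalClosure (Set.range r)) ≤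
          f (T' ⊔ normalClosure (Set.range r)).index → T ≤ B) : Chain K₀ f r (j + 1) T

theorem Chain.normal {K₀ : Subgroup F} [K₀.Normal] {f : ℕ → ℕ} {r : Fin d → F} {j : ℕ}
    {T : Subgroup F} (h : Chain K₀ f r j T) : T.Normal := by
  cases h with
  | zero => infer_instance
  | succ _ hn _ _ => exact hn

theorem comm_le_self (T : Subgroup F) : ⁅T, T⁆ ≤ T := by
  rw [commutator_le]
  intro a ha b hb
  exact T.mul_mem (T.mul_mem (T.mul_mem ha hb) (T.inv_mem ha)) (T.inv_mem hb)

theorem Chain.le {K₀ : Subgroup F} {f : ℕ → ℕ} {r : Fin d → F} {j : ℕ}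
    {T : Subgroup F} (h : Chain K₀ f r j T) : T ≤ K₀ := by
  induction h with
  | zero => exact le_rfl
  | succ _ _ h1 _ ih => exact (h1.trans (comm_le_self _)).trans ih

theorem Chain.mod {K₀ : Subgroup F} [K₀.Normal] {f : ℕ → ℕ} {r s : Fin d → F} {j : ℕ}
    {T : Subgroup F} (h : Chain K₀ f r j T) (hs : ∀ i, s i ∈ T) :
    Chain K₀ f (fun i => r i * s i) j T := by
  induction h with
  | zero => exact Chain.zero
  | @succ j T T' h hn h1 h2 ih =>
    have hs' : ∀ i, s i ∈ T' := fun i => comm_le_self _ (h1 (hs i))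
    haveI := h.normal
    refine Chain.succ (ih hs') hn h1 ?_
    rw [sup_nc hs']
    exact h2

theorem Chain.map {G : Type} [Group G] {K₀ : Subgroup F} {f : ℕ → ℕ} (hf : Monotone f)
    {r : Fin d → F} {j : ℕ} {T : Subgroup F} (h : Chain K₀ f r j T) (π : F →* G)
    (hs : Function.Surjective π) (hπ : π.ker = normalClosure (Set.range r))
    (hi : (T.map π).index ≠ 0) : T.map π ≤ (VV f)^[j] ⊤ := by
  induction h with
  | zero => exact le_top
  | @succ j T T' h hn h1 h2 ih =>
    rw [Function.iterate_succ_apply']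
    have hTT' : T.map π ≤ T'.map π := Subgroup.map_mono (h1.trans (comm_le_self _))
    have hi' : (T'.map π).index ≠ 0 := fun h0 =>
      hi (zero_dvd_iff.1 (by rw [← h0]; exact index_dvd_of_le hTT'))
    refine le_trans ?_ (VV_mono hf (ih hi') hi')
    have hk : (normalClosure (Set.range r)).map π = ⊥ := by
      rw [← hπ, Subgroup.map_eq_bot_iff]
    refine le_inf ?_ (le_sInf ?_)
    · rw [← map_commutator]
      exact Subgroup.map_mono h1
    · rintro B ⟨_, hB0, hBN⟩
      rw [Subgroup.map_le_iff_le_comap]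
      have e : (B.comap π).relIndex (T' ⊔ normalClosure (Set.range r)) =
          B.relIndex (T'.map π) := by
        rw [relIndex_comap, Subgroup.map_sup, hk, sup_bot_eq]
      have e2 : (T' ⊔ normalClosure (Set.range r)).index = (T'.map π).index := by
        rw [← hπ, ← Subgroup.comap_map_eq, Subgroup.index_comap_of_surjective _ hs]
      exact h2 _ (by rw [e]; exact hB0) (by rw [e, e2]; exact hBN)

end

section

variable {F : Type} [Group F] [Group.FG F] {d : ℕ} (x : Fin d → F)
  (hx : closure (Set.range x) = ⊤) (K₀ : Subgroup F) [K₀.Normal] (f : ℕ → ℕ)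

include hx

theorem one_step (j : ℕ) (r : Fin d → F) (T : Subgroup F) (hr : ∀ i, r i ∈ K₀)
    (hc : Chain K₀ f r j T) (hi : (T ⊔ normalClosure (Set.range r)).index ≠ 0) :
    ∃ r' : Fin d → F, (∀ i, r' i ∈ K₀) ∧ Chain K₀ f r' j T ∧
      (T ⊔ normalClosure (Set.range r')).index ≠ 0 ∧
      ∀ (G : Type) [Group G] (π : F →* G), Function.Surjective π → (∀ i, π (r' i) = 1) →
        (T.map π).index ≠ 0 ∧ Finite (Abelianization (T.map π)) := by
  haveI := hc.normal
  haveI : (T ⊔ normalClosure (Set.range r)).FiniteIndex := ⟨hi⟩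
  haveI : Finite (F ⧸ (T ⊔ normalClosure (Set.range r))) := inferInstance
  obtain ⟨s, hs, h⟩ := step (T ⊔ normalClosure (Set.range r)) x hx T le_sup_left r rfl
  refine ⟨fun i => r i * s i, fun i => K₀.mul_mem (hr i) (hc.le (hs i)), hc.mod hs, ?_, ?_⟩
  · rw [sup_nc hs]; exact hi
  intro G _ π hπ hrel
  have h1 : (T ⊔ normalClosure (Set.range r)).map π = T.map π := by
    rw [← sup_nc hs, Subgroup.map_sup]
    have hk : (normalClosure (Set.range fun i => r i * s i)).map π = ⊥ := by
      rw [Subgroup.map_eq_bot_iff]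
      apply normalClosure_le_normal
      rintro _ ⟨i, rfl⟩
      exact hrel i
    rw [hk, sup_bot_eq]
  rw [← h1]
  refine ⟨?_, h G π hrel⟩
  intro h0
  have := Subgroup.index_map_dvd (T ⊔ normalClosure (Set.range r)) hπ
  rw [h0] at this
  exact hi (zero_dvd_iff.1 this)

theorem tower [hf : K₀.FiniteIndex] (j : ℕ) :
    ∃ (r : Fin d → F) (T : Subgroup F), (∀ i, r i ∈ K₀) ∧ Chain K₀ f r j T ∧
      (T ⊔ normalClosure (Set.range r)).index ≠ 0 := by
  induction j with
  | zero =>
    refine ⟨fun _ => 1, K₀, fun _ => K₀.one_mem, Chain.zero, ?_⟩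
    haveI : (K₀ ⊔ normalClosure (Set.range fun _ : Fin d => (1 : F))).FiniteIndex :=
      Subgroup.finiteIndex_of_le (H := K₀) le_sup_left
    exact Subgroup.FiniteIndex.index_ne_zero
  | succ j ih =>
    obtain ⟨r, T, hr, hc, hi⟩ := ih
    obtain ⟨r', hr', hc', hi', h⟩ := one_step x hx K₀ f j r T hr hc hi
    haveI := hc'.normal
    obtain ⟨Z, hZn, hZi, hZ⟩ := exists_ZZ (T ⊔ normalClosure (Set.range r')) hi'
      (f (T ⊔ normalClosure (Set.range r')).index)
    haveI := hZn
    refine ⟨r', ⁅T, T⁆ ⊓ Z, hr', Chain.succ hc' inferInstance inf_le_left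
      (fun B h0 h1 => inf_le_right.trans (hZ B h0 h1)), ?_⟩
    let π := QuotientGroup.mk' (normalClosure (Set.range r'))
    have hπ : Function.Surjective π := QuotientGroup.mk'_surjective _
    obtain ⟨h1, h2⟩ := h _ π hπ (fun i =>
      (QuotientGroup.eq_one_iff _).2 (subset_normalClosure ⟨i, rfl⟩))
    have h3 := comm_index _ h1
    rw [← map_commutator] at h3
    have h4 : ((⁅T, T⁆).map π).comap π = ⁅T, T⁆ ⊔ normalClosure (Set.range r') := by
      rw [Subgroup.comap_map_eq, QuotientGroup.ker_mk']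
    have h5 : (⁅T, T⁆ ⊔ normalClosure (Set.range r')).index ≠ 0 := by
      rw [← h4, Subgroup.index_comap_of_surjective _ hπ]
      exact h3
    have h6 : ((⁅T, T⁆ ⊓ Z) ⊔ normalClosure (Set.range r')).relIndex
        (⁅T, T⁆ ⊔ normalClosure (Set.range r')) ≠ 0 := by
      have e : ⁅T, T⁆ ⊔ normalClosure (Set.range r') =
          ⁅T, T⁆ ⊔ ((⁅T, T⁆ ⊓ Z) ⊔ normalClosure (Set.range r')) := by
        rw [← sup_assoc, sup_inf_self]
      rw [e, relIndex_sup_right]
      intro h0
      have h7 := relIndex_eq_zero_of_le_left (H := ⁅T, T⁆ ⊓ Z) le_sup_left h0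
      rw [inf_comm, inf_relIndex_right] at h7
      exact hZi (index_eq_zero_of_relIndex_eq_zero h7)
    rw [← relIndex_mul_index (sup_le_sup_right inf_le_left (normalClosure (Set.range r')) :
      (⁅T, T⁆ ⊓ Z) ⊔ normalClosure (Set.range r') ≤ ⁅T, T⁆ ⊔ normalClosure (Set.range r'))]
    exact mul_ne_zero h6 h5

/-- The final form of the tower. -/
theorem tower' [hfi : K₀.FiniteIndex] (hf : Monotone f) (k : ℕ) :
    ∃ r : Fin d → F, (∀ i, r i ∈ K₀) ∧ ∀ (G : Type) [Group G] (π : F →* G),
      Function.Surjective π → π.ker = normalClosure (Set.range r) →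
      ((VV f)^[k] (⊤ : Subgroup G)).index ≠ 0 ∧
        ∀ H : Subgroup G, (VV f)^[k] (⊤ : Subgroup G) ≤ H → Finite (Abelianization H) := by
  obtain ⟨r, T, hr, hc, hi⟩ := tower x hx K₀ f k
  obtain ⟨r', hr', hc', _, h⟩ := one_step x hx K₀ f k r T hr hc hi
  refine ⟨r', hr', fun G _ π hπ hker => ?_⟩
  have hrel : ∀ i, π (r' i) = 1 := by
    intro i
    have h0 : r' i ∈ π.ker := by
      rw [hker]
      exact subset_normalClosure ⟨i, rfl⟩
    exact h0
  obtain ⟨h1, h2⟩ := h G π hπ hrel
  have h3 : T.map π ≤ (VV f)^[k] (⊤ : Subgroup G) := hc'.map hf π hπ hker h1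
  haveI : (T.map π).FiniteIndex := ⟨h1⟩
  haveI := h2
  refine ⟨?_, fun H hH => finite_ab_of_le (T.map π) H (h3.trans hH)⟩
  haveI : ((VV f)^[k] (⊤ : Subgroup G)).FiniteIndex := Subgroup.finiteIndex_of_le h3
  exact Subgroup.FiniteIndex.index_ne_zero

end

/-- Chains. -/
theorem VV_chain {G : Type} [Group G] {f : ℕ → ℕ} (hf : Monotone f) (k : ℕ)
    (hk : ((VV f)^[k] (⊤ : Subgroup G)).index ≠ 0) (Q : ℕ → Subgroup G) (hQ0 : Q 0 = ⊤)
    (hQ : ∀ i < k, Q (i + 1) ≤ Q i ∧ (⁅Q i, Q i⁆ ≤ Q (i + 1) ∨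
      ((Q (i + 1)).relIndex (Q i) ≠ 0 ∧ (Q (i + 1)).relIndex (Q i) ≤ f (Q i).index))) :
    (VV f)^[k] (⊤ : Subgroup G) ≤ Q k := by
  have hdec : ∀ i ≤ k, (VV f)^[k] (⊤ : Subgroup G) ≤ (VV f)^[i] (⊤ : Subgroup G) := by
    intro i hik
    obtain ⟨m, rfl⟩ := Nat.exists_eq_add_of_le hik
    clear hik hk hQ
    induction m with
    | zero => exact le_rfl
    | succ m ih =>
      rw [← add_assoc, Function.iterate_succ_apply']
      exact (inf_le_left.trans (comm_le_self _)).trans ih
  have h1 : ∀ i ≤ k, (VV f)^[i] (⊤ : Subgroup G) ≤ Q i := by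
    intro i
    induction i with
    | zero => intro _; rw [hQ0]; exact le_top
    | succ i ih =>
      intro hik
      rw [Function.iterate_succ_apply']
      have hi : ((VV f)^[i] (⊤ : Subgroup G)).index ≠ 0 := fun h0 =>
        hk (zero_dvd_iff.1 (by rw [← h0]; exact index_dvd_of_le (hdec i (by omega))))
      refine (VV_mono hf (ih (by omega)) hi).trans ?_
      obtain ⟨h2, h3 | ⟨h3, h4⟩⟩ := hQ i (by omega)
      · exact inf_le_left.trans h3
      · exact inf_le_right.trans (sInf_le ⟨h2, h3, h4⟩)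
  exact h1 k le_rfl

end Pool.Agent.Work.MP_f3c012_al
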