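import Mathlib

/-!
# MP_f3c012_al: quotients of free groups in which a given finite index subgroup has finite
abelianization (helper66)
-/

set_option autoImplicit false

namespace Pool.Agent.Work.MP_f3c012_al

open Subgroup

section A

variable {F : Type*} [Group F] (K : Subgroup F)

/-- The cocycle `g σ(t) σ(g t)⁻¹` of the transversal `σ = out`. -/
noncomputable def ee (g : F) (t : F ⧸ K) : F := g * t.out * (g • t : F ⧸ K).out⁻¹

theorem ee_mem [K.Normal] (g : F) (t : F ⧸ K) : ee K g t ∈ K := by
  have h1 : ((g * t.out : F) : F ⧸ K) = ((g • t : F ⧸ K).out : F) := by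
    rw [QuotientGroup.out_eq']
    conv_rhs => rw [← QuotientGroup.out_eq' t]
    rfl
  have h2 := QuotientGroup.eq.1 h1.symm
  unfold ee
  exact (‹K.Normal›).mem_comm h2

variable {G : Type*} [Group G] (π : F →* G)

/-- The class of `π k` in the abelianization of `π K`. -/
noncomputable def psi : K →* Abelianization (K.map π) :=
  Abelianization.of.comp (π.subgroupMap K)

/-- The action of `F` on the abelianization of `π K`. -/
noncomputable def act [(K.map π).Normal] (g : F) :
    Abelianization (K.map π) →* Abelianization (K.map π) :=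
  Abelianization.map (MulAut.conjNormal (π g) : K.map π ≃* K.map π).toMonoidHom

theorem act_psi [K.Normal] [(K.map π).Normal] (g : F) (k : K) :
    act K π g (psi K π k) = psi K π ⟨g * k * g⁻¹, (‹K.Normal›).conj_mem _ k.2 g⟩ := by
  unfold act psi
  simp only [MonoidHom.comp_apply]
  rw [Abelianization.map_of]
  congr 1
  apply Subtype.ext
  simp [MulAut.conjNormal_apply]

variable [Finite (F ⧸ K)]

open Classical in
/-- The derivation `F → (π K)^ab`. -/
noncomputable def delta [K.Normal] (g : F) : Abelianization (K.map π) :=
  letI := Fintype.ofFinite (F ⧸ K)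
  ∏ t : F ⧸ K, psi K π ⟨ee K g t, ee_mem K g t⟩

theorem delta_mul [K.Normal] [(K.map π).Normal] (g h : F) :
    delta K π (g * h) = act K π g (delta K π h) * delta K π g := by
  classical
  unfold delta
  letI := Fintype.ofFinite (F ⧸ K)
  rw [map_prod]
  have e1 : ∏ t : F ⧸ K, psi K π ⟨ee K g t, ee_mem K g t⟩ =
      ∏ t : F ⧸ K, psi K π ⟨ee K g (h • t), ee_mem K g _⟩ :=
    (Equiv.prod_comp (MulAction.toPerm h : Equiv.Perm (F ⧸ K))
      (fun t => psi K π ⟨ee K g t, ee_mem K g t⟩)).symm
  rw [e1, ← Finset.prod_mul_distrib]
  refine Finset.prod_congr rfl fun t _ => ?_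
  rw [act_psi, ← map_mul]
  congr 1
  apply Subtype.ext
  simp only [ee, Subgroup.coe_mul, mul_smul]
  group

theorem delta_one [K.Normal] [(K.map π).Normal] : delta K π 1 = 1 := by
  have h := delta_mul K π 1 1
  rw [mul_one] at h
  have h2 : act K π 1 (delta K π 1) = 1 := by
    have := congrArg (· * (delta K π 1)⁻¹) h
    simpa using this.symm
  have h3 : act K π 1 = MonoidHom.id _ := by
    unfold act
    ext x
    simp
  rw [h3] at h2
  exact h2

theorem delta_inv [K.Normal] [(K.map π).Normal] (g : F) (hg : delta K π g = 1) :
    delta K π g⁻¹ = 1 := by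
  have h := delta_mul K π g⁻¹ g
  rw [inv_mul_cancel, delta_one, hg, map_one, one_mul] at h
  exact h.symm

theorem delta_of_closure [K.Normal] [(K.map π).Normal] (S : Set F) (hS : closure S = ⊤)
    (h : ∀ s ∈ S, delta K π s = 1) (g : F) : delta K π g = 1 := by
  have hg : g ∈ closure S := by rw [hS]; trivial
  induction hg using Subgroup.closure_induction with
  | mem x hx => exact h x hx
  | one => exact delta_one K π
  | mul x y _ _ hx hy => rw [delta_mul, hx, hy, map_one, one_mul]
  | inv x _ hx => exact delta_inv K π x hx

theorem delta_of_mem [K.Normal] [(K.map π).Normal] (k : K) :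
    delta K π k = psi K π k ^ Nat.card (F ⧸ K) := by
  classical
  unfold delta
  letI := Fintype.ofFinite (F ⧸ K)
  have : ∀ t : F ⧸ K, psi K π ⟨ee K (k : F) t, ee_mem K _ t⟩ = psi K π k := by
    intro t
    congr 1
    apply Subtype.ext
    have h1 : ((k : F) • t : F ⧸ K) = t := by
      rw [← QuotientGroup.out_eq' t]
      change (((k : F) * t.out : F) : F ⧸ K) = _
      apply Eq.symm
      rw [QuotientGroup.eq]
      have := (‹K.Normal›).conj_mem (k : F) k.2 (t.out)⁻¹
      simpa [mul_assoc] using this
    simp only [ee]
    rw [h1]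
    group
  rw [Finset.prod_congr rfl fun t _ => this t, Finset.prod_const, Finset.card_univ,
    Nat.card_eq_fintype_card]

/-- If `π` is onto and kills `delta` of generators, then `(π K)^ab` is finite. -/
theorem finite_ab [K.Normal] [(K.map π).Normal] (S : Set F) (hS : closure S = ⊤)
    (h : ∀ s ∈ S, delta K π s = 1) [Group.FG F] : Finite (Abelianization (K.map π)) := by
  haveI : K.FiniteIndex := Subgroup.finiteIndex_of_finite_quotient
  haveI : Group.FG K := fg_of_index_ne_zero K
  haveI : Group.FG (K.map π) := Group.fg_of_surjective (π.subgroupMap_surjective K)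
  haveI : Group.FG (Abelianization (K.map π)) :=
    Group.fg_of_surjective (f := Abelianization.of) (QuotientGroup.mk'_surjective _)
  apply CommGroup.finite_of_fg_isMulTorsion
  intro x
  obtain ⟨y, rfl⟩ := QuotientGroup.mk'_surjective _ x
  obtain ⟨k, rfl⟩ := π.subgroupMap_surjective K y
  rw [isOfFinOrder_iff_pow_eq_one]
  refine ⟨Nat.card (F ⧸ K), Nat.card_pos, ?_⟩
  have h1 := delta_of_mem K π k
  rw [delta_of_closure K π S hS h] at h1
  exact h1.symm

end A

/-- A subgroup containing a finite index subgroup with finite abelianization has finite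
abelianization. -/
theorem finite_ab_of_le {G : Type*} [Group G] (L H : Subgroup G) (hLH : L ≤ H) [L.FiniteIndex]
    [Finite (Abelianization L)] : Finite (Abelianization H) := by
  let f : L →* H := Subgroup.inclusion hLH
  let fa : Abelianization L →* Abelianization H := Abelianization.map f
  have hr : (L.subgroupOf H).map (Abelianization.of : H →* Abelianization H) ≤ fa.range := by
    rintro _ ⟨x, hx, rfl⟩
    refine ⟨Abelianization.of ⟨x, hx⟩, ?_⟩
    simp only [fa, Abelianization.map_of]
    rfl
  haveI : Finite fa.range := Finite.of_surjective _ fa.rangeRestrict_surjective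
  haveI h1 : (L.subgroupOf H).FiniteIndex := inferInstance
  have h2 : ((L.subgroupOf H).map (Abelianization.of : H →* Abelianization H)).index ≠ 0 := by
    intro h0
    have := Subgroup.index_map_dvd (L.subgroupOf H)
      (f := (Abelianization.of : H →* Abelianization H)) (QuotientGroup.mk'_surjective _)
    rw [h0] at this
    exact h1.index_ne_zero (zero_dvd_iff.1 this)
  have h3 : fa.range.index ≠ 0 := by
    intro h0
    have := Subgroup.index_dvd_of_le hr
    rw [h0] at this
    exact h2 (zero_dvd_iff.1 this)
  have h4 := fa.range.card_mul_index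
  apply Nat.finite_of_card_ne_zero
  rw [← h4]
  exact mul_ne_zero Nat.card_pos.ne' h3

end Pool.Agent.Work.MP_f3c012_al
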