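import Pool.Agent.Work.MP_f3c012_al.D
import Pool.Agent.Work.MP_f3c012_al.AdjA

/-!
# MP_f3c012_al: Zassenhaus degrees of the adjoint relators (helper80)
-/

set_option autoImplicit false
set_option linter.style.haveILetI false

namespace Pool.Agent.Work.MP_f3c012_al

open Subgroup

section

variable (p : ℕ) (F : Type) [Group F]

theorem aug_mul_left (n : ℕ) (a b : MonoidAlgebra (ZMod p) F) (hb : b ∈ aug p F ^ (n + 1)) :
    a * b ∈ aug p F ^ (n + 1) := by
  have h1 : ∀ (g : F) (b : MonoidAlgebra (ZMod p) F), b ∈ aug p F ^ (n + 1) →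
      MonoidAlgebra.of (ZMod p) F g * b ∈ aug p F ^ (n + 1) := by
    intro g b hb
    have h2 : (MonoidAlgebra.of (ZMod p) F g - 1) * b ∈ aug p F ^ (n + 1 + 1) := by
      have := Submodule.mul_mem_mul (of_sub_one_mem p F g) hb
      rwa [← pow_succ'] at this
    have h3 := pow_succ_le p F (n + 1) (by omega) h2
    have h4 : MonoidAlgebra.of (ZMod p) F g * b = (MonoidAlgebra.of (ZMod p) F g - 1) * b + b := by
      noncomm_ring
    rw [h4]
    exact add_mem h3 hb
  induction a using MonoidAlgebra.induction_on with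
  | of g => exact h1 g b hb
  | add a a' ha ha' => rw [add_mul]; exact add_mem ha ha'
  | smul r a ha => rw [smul_mul_assoc]; exact Submodule.smul_mem _ r ha

theorem aug_mul_right (n : ℕ) (a b : MonoidAlgebra (ZMod p) F) (hb : b ∈ aug p F ^ (n + 1)) :
    b * a ∈ aug p F ^ (n + 1) := by
  have h1 : ∀ (g : F) (b : MonoidAlgebra (ZMod p) F), b ∈ aug p F ^ (n + 1) →
      b * MonoidAlgebra.of (ZMod p) F g ∈ aug p F ^ (n + 1) := by
    intro g b hb
    have h2 : b * (MonoidAlgebra.of (ZMod p) F g - 1) ∈ aug p F ^ (n + 1 + 1) := by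
      have := Submodule.mul_mem_mul hb (of_sub_one_mem p F g)
      rwa [← pow_succ] at this
    have h3 := pow_succ_le p F (n + 1) (by omega) h2
    have h4 : b * MonoidAlgebra.of (ZMod p) F g = b * (MonoidAlgebra.of (ZMod p) F g - 1) + b := by
      noncomm_ring
    rw [h4]
    exact add_mem h3 hb
  induction a using MonoidAlgebra.induction_on with
  | of g => exact h1 g b hb
  | add a a' ha ha' => rw [mul_add]; exact add_mem ha ha'
  | smul r a ha => rw [mul_smul_comm]; exact Submodule.smul_mem _ r ha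

/-- The Zassenhaus subgroup `D_(n+1)`. -/
def zas (n : ℕ) : Subgroup F where
  carrier := {g | MonoidAlgebra.of (ZMod p) F g - 1 ∈ aug p F ^ (n + 1)}
  mul_mem' := by
    intro a b ha hb
    have ha' : MonoidAlgebra.of (ZMod p) F a - 1 ∈ aug p F ^ (n + 1) := ha
    have hb' : MonoidAlgebra.of (ZMod p) F b - 1 ∈ aug p F ^ (n + 1) := hb
    show MonoidAlgebra.of (ZMod p) F (a * b) - 1 ∈ aug p F ^ (n + 1)
    have e : MonoidAlgebra.of (ZMod p) F (a * b) - 1 =
        MonoidAlgebra.of (ZMod p) F a * (MonoidAlgebra.of (ZMod p) F b - 1) +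
          (MonoidAlgebra.of (ZMod p) F a - 1) := by
      rw [map_mul]; noncomm_ring
    rw [e]
    exact add_mem (aug_mul_left p F n _ _ hb') ha'
  one_mem' := by
    show MonoidAlgebra.of (ZMod p) F 1 - 1 ∈ aug p F ^ (n + 1)
    rw [map_one, sub_self]
    exact Submodule.zero_mem _
  inv_mem' := by
    intro a ha
    have ha' : MonoidAlgebra.of (ZMod p) F a - 1 ∈ aug p F ^ (n + 1) := ha
    show MonoidAlgebra.of (ZMod p) F a⁻¹ - 1 ∈ aug p F ^ (n + 1)
    have e : MonoidAlgebra.of (ZMod p) F a⁻¹ - 1 =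
        - (MonoidAlgebra.of (ZMod p) F a⁻¹ * (MonoidAlgebra.of (ZMod p) F a - 1)) := by
      rw [mul_sub, ← map_mul, inv_mul_cancel, map_one, mul_one]
      noncomm_ring
    rw [e]
    exact neg_mem (aug_mul_left p F n _ _ ha')

theorem mem_zas (n : ℕ) (g : F) :
    g ∈ zas p F n ↔ MonoidAlgebra.of (ZMod p) F g - 1 ∈ aug p F ^ (n + 1) := Iff.rfl

instance zas_normal (n : ℕ) : (zas p F n).Normal := by
  constructor
  intro a ha g
  rw [mem_zas] at ha ⊢
  have e : MonoidAlgebra.of (ZMod p) F (g * a * g⁻¹) - 1 =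
      MonoidAlgebra.of (ZMod p) F g * (MonoidAlgebra.of (ZMod p) F a - 1) *
        MonoidAlgebra.of (ZMod p) F g⁻¹ := by
    rw [mul_sub, sub_mul, mul_one, ← map_mul, ← map_mul, ← map_mul, mul_inv_cancel, map_one]
  rw [e]
  exact aug_mul_right p F n _ _ (aug_mul_left p F n _ _ ha)

/-- The commutator of `D_2` and `F` lies in `D_3`. -/
theorem zas_comm (n : ℕ) (r g : F) (hr : r ∈ zas p F n) : r * g * r⁻¹ * g⁻¹ ∈ zas p F (n + 1) := by
  rw [mem_zas] at hr ⊢
  have e : MonoidAlgebra.of (ZMod p) F (r * g * r⁻¹ * g⁻¹) - 1 =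
      ((MonoidAlgebra.of (ZMod p) F r - 1) * (MonoidAlgebra.of (ZMod p) F g - 1) -
        (MonoidAlgebra.of (ZMod p) F g - 1) * (MonoidAlgebra.of (ZMod p) F r - 1)) *
          MonoidAlgebra.of (ZMod p) F (r⁻¹ * g⁻¹) := by
    have h1 : (MonoidAlgebra.of (ZMod p) F r - 1) * (MonoidAlgebra.of (ZMod p) F g - 1) -
        (MonoidAlgebra.of (ZMod p) F g - 1) * (MonoidAlgebra.of (ZMod p) F r - 1) =
        MonoidAlgebra.of (ZMod p) F (r * g) - MonoidAlgebra.of (ZMod p) F (g * r) := by
      rw [map_mul, map_mul]; noncomm_ring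
    rw [h1, sub_mul, ← map_mul, ← map_mul]
    congr 1
    · congr 1; group
    · rw [show g * r * (r⁻¹ * g⁻¹) = 1 by group, map_one]
  rw [e]
  apply aug_mul_right
  refine sub_mem ?_ ?_
  · have := Submodule.mul_mem_mul hr (of_sub_one_mem p F g)
    rwa [← pow_succ] at this
  · have := Submodule.mul_mem_mul (of_sub_one_mem p F g) hr
    rwa [← pow_succ'] at this

theorem zas_pow_p [Fact p.Prime] (n : ℕ) (r : F) (hr : r ∈ zas p F (n + 1)) :
    r ^ p ∈ zas p F (n + 2) := by
  rw [mem_zas] at hr ⊢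
  have e : MonoidAlgebra.of (ZMod p) F (r ^ p) - 1 = (MonoidAlgebra.of (ZMod p) F r - 1) ^ p := by
    haveI : CharP (MonoidAlgebra (ZMod p) F) p := by
      haveI : Nontrivial (MonoidAlgebra (ZMod p) F) := inferInstance
      exact charP_of_injective_algebraMap (algebraMap (ZMod p) (MonoidAlgebra (ZMod p) F)).injective p
    haveI : ExpChar (MonoidAlgebra (ZMod p) F) p := ExpChar.prime Fact.out
    rw [map_pow, sub_pow_expChar_of_commute p (Commute.one_right _), one_pow]
  rw [e]
  have hp2 : 2 ≤ p := (Fact.out : p.Prime).two_le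
  have h1 : (MonoidAlgebra.of (ZMod p) F r - 1) ^ p ∈ aug p F ^ ((n + 1 + 1) * p) := by
    rw [pow_mul]
    exact Submodule.pow_mem_pow _ hr p
  refine pow_le_of_le p F (n + 2 + 1) ((n + 1 + 1) * p) (by omega) ?_ h1
  nlinarith

theorem zas_le (n m : ℕ) (h : n ≤ m) : zas p F m ≤ zas p F n := by
  intro g hg
  rw [mem_zas] at hg ⊢
  exact pow_le_of_le p F (n + 1) (m + 1) (by omega) (by omega) hg

end

/-- The exponent sum of the generator `i` in the word `w`. -/
def wexp {k : ℕ} (i : Fin k) (w : List (Fin k × Bool)) : ℤ :=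
  (w.map fun y => if y.1 = i then (if y.2 then 1 else -1) else 0).sum

theorem wexp_expo {k : ℕ} (i : Fin k) (w : List (Fin k × Bool)) :
    expo k (Pi.single i 1) (FreeGroup.mk w) = Multiplicative.ofAdd (wexp i w) := by
  induction w with
  | nil =>
    have h1 : (FreeGroup.mk ([] : List (Fin k × Bool))) = 1 := rfl
    rw [h1, map_one]
    rfl
  | cons y w ih =>
    obtain ⟨a, b⟩ := y
    have h1 : FreeGroup.mk ((a, b) :: w) = FreeGroup.mk [(a, b)] * FreeGroup.mk w := rfl
    have h2 : wexp i ((a, b) :: w) = (if a = i then (if b then 1 else -1) else 0) + wexp i w := by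
      simp [wexp]
    rw [h1, map_mul, ih, h2, ofAdd_add]
    congr 1
    cases b
    · have h3 : (FreeGroup.mk [(a, false)] : FreeGroup (Fin k)) = (FreeGroup.of a)⁻¹ := rfl
      rw [h3, map_inv, expo, FreeGroup.lift_apply_of]
      by_cases h : a = i
      · subst h; simp
      · simp [h]
    · have h3 : (FreeGroup.mk [(a, true)] : FreeGroup (Fin k)) = FreeGroup.of a := rfl
      rw [h3, expo, FreeGroup.lift_apply_of]
      by_cases h : a = i
      · subst h; simp
      · simp [h]

/-- `tw i w r` is a power of `r` modulo `[F, r]`. -/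
theorem tw_mod (p : ℕ) {k : ℕ} (n : ℕ) (i : Fin k) (w : List (Fin k × Bool)) :
    ∀ r ∈ zas p (FreeGroup (Fin k)) n,
      (r ^ (wexp i w))⁻¹ * tw i w r ∈ zas p (FreeGroup (Fin k)) (n + 1) := by
  set Z := zas p (FreeGroup (Fin k)) (n + 1) with hZ
  have hcomm : ∀ r ∈ zas p (FreeGroup (Fin k)) n, ∀ g : FreeGroup (Fin k),
      QuotientGroup.mk' Z (g * r * g⁻¹) = QuotientGroup.mk' Z r := by
    intro r hr g
    rw [QuotientGroup.mk'_apply, QuotientGroup.mk'_apply]
    apply Eq.symm
    rw [QuotientGroup.eq]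
    have h1 := zas_comm p _ n r⁻¹ g ((zas p _ n).inv_mem hr)
    have h2 : r⁻¹ * (g * r * g⁻¹) = r⁻¹ * g * (r⁻¹)⁻¹ * g⁻¹ := by group
    rw [h2]
    exact h1
  have key : ∀ r ∈ zas p (FreeGroup (Fin k)) n,
      QuotientGroup.mk' Z (tw i w r) = QuotientGroup.mk' Z r ^ (wexp i w) := by
    induction w with
    | nil => intro r _; simp [tw, wexp]
    | cons y w ih =>
      obtain ⟨a, b⟩ := y
      intro r hr
      have h1 : (FreeGroup.mk [(a, b)])⁻¹ * r * FreeGroup.mk [(a, b)] ∈
          zas p (FreeGroup (Fin k)) n := by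
        have := (zas_normal p (FreeGroup (Fin k)) n).conj_mem r hr (FreeGroup.mk [(a, b)])⁻¹
        rwa [inv_inv] at this
      have h2 : QuotientGroup.mk' Z ((FreeGroup.mk [(a, b)])⁻¹ * r * FreeGroup.mk [(a, b)]) =
          QuotientGroup.mk' Z r := by
        have := hcomm r hr (FreeGroup.mk [(a, b)])⁻¹
        rwa [inv_inv] at this
      have h3 : tw i ((a, b) :: w) r =
        (if a = i then (if b then r else FreeGroup.of a * r⁻¹ * (FreeGroup.of a)⁻¹) else 1) *
          tw i w ((FreeGroup.mk [(a, b)])⁻¹ * r * FreeGroup.mk [(a, b)]) := rfl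
      have h4 : wexp i ((a, b) :: w) = (if a = i then (if b then 1 else -1) else 0) + wexp i w := by
        simp [wexp]
      rw [h3, map_mul, ih _ h1, h2, h4, zpow_add]
      congr 1
      by_cases h : a = i
      · cases b
        · simp only [h, if_true, Bool.false_eq_true, if_false]
          rw [hcomm _ ((zas p _ n).inv_mem hr), map_inv, zpow_neg, zpow_one]
        · simp only [h, if_true, zpow_one]
      · simp only [h, if_false, map_one, zpow_zero]
  intro r hr
  have h1 := key r hr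
  rw [← map_zpow] at h1
  rw [QuotientGroup.mk'_apply, QuotientGroup.mk'_apply] at h1
  exact QuotientGroup.eq.1 h1.symm

/-- The homomorphism `g ↦ 1 + e(g) ε` into the dual numbers. -/
noncomputable def dualHom (p : ℕ) {k : ℕ} (i : Fin k) :
    FreeGroup (Fin k) →* DualNumber (ZMod p) where
  toFun g := TrivSqZeroExt.inl 1 +
    TrivSqZeroExt.inr (((Multiplicative.toAdd (expo k (Pi.single i 1) g) : ℤ) : ZMod p))
  map_one' := by
    rw [map_one, toAdd_one]
    simp
  map_mul' g h := by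
    rw [map_mul, toAdd_mul]
    push_cast
    apply TrivSqZeroExt.ext
    · simp
    · simp [add_comm]

/-- The exponent sums of an element of `D_2` are divisible by `p`. -/
theorem dvd_of_zas (p : ℕ) [Fact p.Prime] {k : ℕ} (i : Fin k) (r : FreeGroup (Fin k))
    (hr : r ∈ zas p (FreeGroup (Fin k)) 1) : (p : ℤ) ∣ wexp i r.toWord := by
  let Φ : MonoidAlgebra (ZMod p) (FreeGroup (Fin k)) →ₐ[ZMod p] DualNumber (ZMod p) :=
    MonoidAlgebra.lift (ZMod p) _ _ (dualHom p i)
  have hΦ : ∀ g, Φ (MonoidAlgebra.of (ZMod p) _ g) = dualHom p i g := fun g => by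
    simp only [Φ, MonoidAlgebra.lift_of]
  have h1 : ∀ a ∈ aug p (FreeGroup (Fin k)), TrivSqZeroExt.fst (Φ a) = 0 := by
    intro a ha
    unfold aug at ha
    induction ha using Submodule.span_induction with
    | mem x hx =>
      obtain ⟨g, rfl⟩ := hx
      rw [map_sub, map_one, hΦ]
      simp [dualHom]
    | zero => rw [map_zero]; rfl
    | add x y _ _ hx hy => rw [map_add, TrivSqZeroExt.fst_add, hx, hy, add_zero]
    | smul c x _ hx => rw [map_smul, TrivSqZeroExt.fst_smul, hx, smul_zero]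
  have h2 : ∀ a ∈ aug p (FreeGroup (Fin k)) ^ (1 + 1), Φ a = 0 := by
    intro a ha
    rw [pow_succ, pow_one] at ha
    refine Submodule.mul_induction_on ha (fun x hx y hy => ?_) (fun x y hx hy => ?_)
    · rw [map_mul]
      apply TrivSqZeroExt.ext
      · rw [TrivSqZeroExt.fst_mul, h1 x hx, zero_mul]; rfl
      · rw [TrivSqZeroExt.snd_mul, h1 x hx, h1 y hy]; simp
    · rw [map_add, hx, hy, add_zero]
  have h3 := h2 _ hr
  rw [map_sub, map_one, hΦ] at h3
  have h4 := congrArg TrivSqZeroExt.snd h3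
  have h5 := wexp_expo i r.toWord
  rw [FreeGroup.mk_toWord] at h5
  have h6 : ((Multiplicative.toAdd (expo k (Pi.single i 1) r) : ℤ) : ZMod p) = 0 := by
    simpa [dualHom] using h4
  rw [h5] at h6
  exact (ZMod.intCast_zmod_eq_zero_iff_dvd _ p).1 h6

/-- The adjoint relators of relators in `D_2` lie in `D_3`. -/
theorem sadj_zas (p : ℕ) [Fact p.Prime] {k : ℕ} (L : List (FreeGroup (Fin k)))
    (hL : ∀ r ∈ L, r ∈ zas p (FreeGroup (Fin k)) 1) (i : Fin k) :
    sadj L i ∈ zas p (FreeGroup (Fin k)) 2 := by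
  unfold sadj
  refine (zas p (FreeGroup (Fin k)) 2).list_prod_mem fun x hx => ?_
  obtain ⟨r, hr, rfl⟩ := List.mem_map.1 hx
  have h1 := tw_mod p 1 i r.toWord r (hL r hr)
  obtain ⟨c, hc⟩ := dvd_of_zas p i r (hL r hr)
  have h2 : r ^ (wexp i r.toWord) ∈ zas p (FreeGroup (Fin k)) 2 := by
    rw [hc, zpow_mul, zpow_natCast]
    exact (zas p (FreeGroup (Fin k)) 2).zpow_mem (zas_pow_p p _ 0 r (hL r hr)) c
  have h3 := (zas p (FreeGroup (Fin k)) 2).mul_mem h2 h1
  rwa [mul_inv_cancel_left] at h3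

end Pool.Agent.Work.MP_f3c012_al
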