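import Mathlib

/-!
# MP_f3c012_al: the Zassenhaus filtration (helper66)
-/

set_option autoImplicit false

namespace Pool.Agent.Work.MP_f3c012_al

open Subgroup

/-- The augmentation ideal (as a subspace) of the group algebra over `ZMod p`. -/
noncomputable def aug (p : ℕ) (F : Type) [Group F] : Submodule (ZMod p) (MonoidAlgebra (ZMod p) F) :=
  Submodule.span (ZMod p) (Set.range fun g : F => MonoidAlgebra.of (ZMod p) F g - 1)

section

variable (p : ℕ) (F : Type) [Group F]

theorem of_sub_one_mem (g : F) : MonoidAlgebra.of (ZMod p) F g - 1 ∈ aug p F :=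
  Submodule.subset_span ⟨g, rfl⟩

theorem aug_mul_le : aug p F * aug p F ≤ aug p F := by
  unfold aug
  rw [Submodule.span_mul_span, Submodule.span_le]
  rintro _ ⟨_, ⟨g, rfl⟩, _, ⟨h, rfl⟩, rfl⟩
  have e : (MonoidAlgebra.of (ZMod p) F g - 1) * (MonoidAlgebra.of (ZMod p) F h - 1) =
      (MonoidAlgebra.of (ZMod p) F (g * h) - 1) - (MonoidAlgebra.of (ZMod p) F g - 1) -
        (MonoidAlgebra.of (ZMod p) F h - 1) := by
    rw [map_mul]
    noncomm_ring
  simp only [SetLike.mem_coe]
  rw [e]
  exact sub_mem (sub_mem (of_sub_one_mem p F _) (of_sub_one_mem p F _)) (of_sub_one_mem p F _)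

theorem pow_succ_le (n : ℕ) (hn : 1 ≤ n) : aug p F ^ (n + 1) ≤ aug p F ^ n := by
  obtain ⟨m, rfl⟩ : ∃ m, n = m + 1 := ⟨n - 1, by omega⟩
  rw [pow_succ, pow_succ, mul_assoc]
  exact mul_le_mul' le_rfl (aug_mul_le p F)

theorem pow_le_of_le (m n : ℕ) (hm : 1 ≤ m) (h : m ≤ n) : aug p F ^ n ≤ aug p F ^ m := by
  induction n, h using Nat.le_induction with
  | base => exact le_rfl
  | succ n hn ih => exact (pow_succ_le p F n (hm.trans hn)).trans ih

end

variable (p : ℕ) [Fact p.Prime] (F : Type) [Group F] [Group.FG F]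

/-- `D_m` contains a subgroup of finite index. -/
theorem exists_zas (m : ℕ) : ∃ K : Subgroup F, K.FiniteIndex ∧
    ∀ g ∈ K, MonoidAlgebra.of (ZMod p) F g - 1 ∈ aug p F ^ (m + 1) := by
  induction m with
  | zero =>
    refine ⟨⊤, inferInstance, fun g _ => ?_⟩
    rw [zero_add, pow_one]
    exact of_sub_one_mem p F g
  | succ m ih =>
    obtain ⟨K, hK, hKm⟩ := ih
    let Q := MonoidAlgebra (ZMod p) F ⧸ (aug p F ^ (m + 1 + 1))
    let q : MonoidAlgebra (ZMod p) F →ₗ[ZMod p] Q := (aug p F ^ (m + 1 + 1)).mkQ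
    let θ : K →* Multiplicative Q :=
      { toFun := fun g => Multiplicative.ofAdd (q (MonoidAlgebra.of (ZMod p) F g - 1))
        map_one' := by
          rw [Subgroup.coe_one, map_one, sub_self, map_zero]
          rfl
        map_mul' := fun g h => by
          rw [← ofAdd_add, ← map_add]
          congr 1
          rw [← sub_eq_zero, ← map_sub]
          have e : MonoidAlgebra.of (ZMod p) F ((g * h : K) : F) - 1 -
              (MonoidAlgebra.of (ZMod p) F (g : F) - 1 + (MonoidAlgebra.of (ZMod p) F (h : F) - 1)) =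
              (MonoidAlgebra.of (ZMod p) F (g : F) - 1) *
                (MonoidAlgebra.of (ZMod p) F (h : F) - 1) := by
            rw [Subgroup.coe_mul, map_mul]
            noncomm_ring
          rw [e]
          have h1 := Submodule.mul_mem_mul (hKm g g.2) (hKm h h.2)
          rw [← pow_add] at h1
          have h2 := pow_le_of_le p F (m + 1 + 1) (m + 1 + (m + 1)) (by omega) (by omega) h1
          exact (Submodule.Quotient.mk_eq_zero _).2 h2 }
    haveI : Group.FG K := fg_of_index_ne_zero K
    haveI : Group.FG θ.range := inferInstance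
    haveI : Finite θ.range := by
      apply CommGroup.finite_of_fg_isMulTorsion
      intro x
      rw [isOfFinOrder_iff_pow_eq_one]
      refine ⟨p, (Fact.out : p.Prime).pos, ?_⟩
      apply Subtype.ext
      obtain ⟨x, hx⟩ := x
      change x ^ p = 1
      have : Multiplicative.toAdd (x ^ p) = 0 := by
        rw [toAdd_pow]
        have h3 : (p : ZMod p) • (Multiplicative.toAdd x : Q) = 0 := by
          rw [CharP.cast_eq_zero, zero_smul]
        rw [← h3]
        exact (Nat.cast_smul_eq_nsmul (ZMod p) p (Multiplicative.toAdd x : Q)).symm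
      exact this
    have hker : θ.ker.FiniteIndex := inferInstance
    refine ⟨θ.ker.map K.subtype, ⟨?_⟩, ?_⟩
    · rw [Subgroup.index_map_subtype]
      exact mul_ne_zero hker.index_ne_zero hK.index_ne_zero
    · rintro _ ⟨g, hg, rfl⟩
      have h1 : θ g = 1 := hg
      have h2 : q (MonoidAlgebra.of (ZMod p) F (g : F) - 1) = 0 := h1
      exact (Submodule.Quotient.mk_eq_zero _).1 h2

end Pool.Agent.Work.MP_f3c012_al
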