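import Mathlib

/-!
# MP_f3c012_al: small index subgroups of free groups (helper66)
-/

set_option autoImplicit false

namespace Pool.Agent.Work.MP_f3c012_al

open Subgroup

/-- The intersection of the kernels of all homomorphisms into symmetric groups of degree at most
`N`. -/
def KN (d N : ℕ) : Subgroup (FreeGroup (Fin d)) :=
  ⨅ n : Fin (N + 1), ⨅ φ : FreeGroup (Fin d) →* Equiv.Perm (Fin n), φ.ker

instance (d n : ℕ) : Finite (FreeGroup (Fin d) →* Equiv.Perm (Fin n)) :=
  Finite.of_equiv (Fin d → Equiv.Perm (Fin n)) FreeGroup.lift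

theorem KN_finiteIndex (d N : ℕ) : (KN d N).FiniteIndex := by
  unfold KN
  refine Subgroup.finiteIndex_iInf fun n => Subgroup.finiteIndex_iInf fun φ => ?_
  infer_instance

theorem KN_le (d N : ℕ) (S : Subgroup (FreeGroup (Fin d))) (h0 : S.index ≠ 0)
    (hS : S.index ≤ N) : KN d N ≤ S := by
  haveI : S.FiniteIndex := ⟨h0⟩
  haveI : Finite (FreeGroup (Fin d) ⧸ S) := inferInstance
  have hc : Nat.card (FreeGroup (Fin d) ⧸ S) = S.index := rfl
  let e : (FreeGroup (Fin d) ⧸ S) ≃ Fin S.index := Finite.equivFinOfCardEq hc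
  let φ : FreeGroup (Fin d) →* Equiv.Perm (Fin S.index) :=
    (e.permCongrHom.toMonoidHom).comp (MulAction.toPermHom (FreeGroup (Fin d))
      (FreeGroup (Fin d) ⧸ S))
  have h1 : φ.ker ≤ S := by
    intro g hg
    have h2 : MulAction.toPermHom (FreeGroup (Fin d)) (FreeGroup (Fin d) ⧸ S) g = 1 := by
      have h3 : e.permCongrHom (MulAction.toPermHom (FreeGroup (Fin d))
        (FreeGroup (Fin d) ⧸ S) g) = 1 := hg
      rwa [map_eq_one_iff _ e.permCongrHom.injective] at h3
    have h4 : g ∈ S.normalCore := by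
      rw [Subgroup.normalCore_eq_ker]
      exact h2
    exact Subgroup.normalCore_le S h4
  refine le_trans ?_ h1
  unfold KN
  exact (iInf_le _ (⟨S.index, by omega⟩ : Fin (N + 1))).trans (iInf_le _ φ)

end Pool.Agent.Work.MP_f3c012_al
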