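import Pool.Agent.Work.MP_f3c012_al.A
import Pool.Agent.Work.MP_f3c012_al.C
import Pool.Agent.Work.MP_f3c012_al.D

/-!
# Balanced Golod-Shafarevich groups all of whose subgroups of small index have finite
abelianization
-/

set_option autoImplicit false

namespace Pool.Agent.Results.MP_f3c012_al.BoundedIndex

/-- The augmentation ideal `M` of the group algebra `F_p[F]` of the free group `F` of rank `d`
(the span of the elements `g - 1`). -/
noncomputable def augIdeal (p d : ℕ) :
    Submodule (ZMod p) (MonoidAlgebra (ZMod p) (FreeGroup (Fin d))) :=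
  Submodule.span (ZMod p)
    (Set.range fun g : FreeGroup (Fin d) => MonoidAlgebra.of (ZMod p) (FreeGroup (Fin d)) g - 1)

/-- The Zassenhaus filtration: `g ∈ D_n` if and only if `g - 1 ∈ M^n`. -/
def D (p d n : ℕ) : Set (FreeGroup (Fin d)) :=
  {g | MonoidAlgebra.of (ZMod p) (FreeGroup (Fin d)) g - 1 ∈ augIdeal p d ^ n}

/-- `deg r = k`: `r ∈ D_k` and `r ∉ D_(k+1)`. -/
def HasDeg (p d : ℕ) (r : FreeGroup (Fin d)) (k : ℕ) : Prop := r ∈ D p d k ∧ r ∉ D p d (k + 1)

/-- The group `G` is Golod-Shafarevich with respect to `p`: it has a presentation with `d`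
generators and a set `R` of nontrivial relators with `1 - d t + ∑_(r ∈ R) t^(deg r) < 0` for some
`t ∈ (0, 1)`. -/
def GolodShafarevich (p : ℕ) (G : Type) [Group G] : Prop :=
  ∃ (d : ℕ) (R : Set (FreeGroup (Fin d))), 1 ∉ R ∧ Nonempty (G ≃* PresentedGroup R) ∧
    ∃ deg : R → ℕ, (∀ r : R, HasDeg p d r (deg r)) ∧
      ∃ t : ℝ, 0 < t ∧ t < 1 ∧ Summable (fun r : R => t ^ deg r) ∧
        1 - (d : ℝ) * t + ∑' r : R, t ^ deg r < 0

open Pool.Agent.Work.MP_f3c012_al Subgroup

theorem result (d : ℕ) (hd : 2 ≤ d) (N m : ℕ) :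
    ∃ r : Fin d → FreeGroup (Fin d),
      (∀ p : ℕ, p.Prime → p ≤ N → GolodShafarevich p (PresentedGroup (Set.range r))) ∧
      (∀ p : ℕ, p.Prime → p ≤ N → ∀ i, ∃ k, m ≤ k ∧ HasDeg p d (r i) k) ∧
      ∀ H : Subgroup (PresentedGroup (Set.range r)), H.index ≠ 0 → H.index ≤ N →
        Finite (Abelianization H) := by
  classical
  -- the subgroup `K`
  have hz : ∀ p : Fin (N + 1), ∃ K : Subgroup (FreeGroup (Fin d)), K.FiniteIndex ∧
      ((p : ℕ).Prime → ∀ g ∈ K, MonoidAlgebra.of (ZMod p) (FreeGroup (Fin d)) g - 1 ∈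
        aug p (FreeGroup (Fin d)) ^ (m + 4 + 1)) := by
    intro p
    by_cases hp : (p : ℕ).Prime
    · haveI : Fact (p : ℕ).Prime := ⟨hp⟩
      obtain ⟨K, hK, h⟩ := exists_zas (p : ℕ) (FreeGroup (Fin d)) (m + 4)
      exact ⟨K, hK, fun _ => h⟩
    · exact ⟨⊤, inferInstance, fun h => absurd h hp⟩
  choose Z hZ hZ2 using hz
  let K0 : Subgroup (FreeGroup (Fin d)) := KN d (N + 1) ⊓ ⨅ p, Z p
  haveI hKN := KN_finiteIndex d (N + 1)
  haveI hZi : (⨅ p, Z p).FiniteIndex := Subgroup.finiteIndex_iInf hZ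
  haveI hK0 : K0.FiniteIndex := inferInstance
  let K : Subgroup (FreeGroup (Fin d)) := K0.normalCore
  haveI hK : K.FiniteIndex := inferInstance
  haveI : K.Normal := inferInstance
  have hK1 : K ≤ KN d (N + 1) := (Subgroup.normalCore_le K0).trans inf_le_left
  have hK2 : ∀ p, K ≤ Z p := fun p =>
    (Subgroup.normalCore_le K0).trans (inf_le_right.trans (iInf_le _ p))
  haveI : Finite (FreeGroup (Fin d) ⧸ K) := inferInstance
  letI := Fintype.ofFinite (FreeGroup (Fin d) ⧸ K)
  -- the relators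
  let w : Fin d → K := fun i => ((Finset.univ : Finset (FreeGroup (Fin d) ⧸ K)).toList.map
    fun t => (⟨ee K (FreeGroup.of i) t, ee_mem K _ t⟩ : K)).prod
  let r : Fin d → FreeGroup (Fin d) := fun i => (w i : FreeGroup (Fin d))
  let G := PresentedGroup (Set.range r)
  let π : FreeGroup (Fin d) →* G := PresentedGroup.mk (Set.range r)
  have hπ : Function.Surjective π := QuotientGroup.mk'_surjective _
  have hπr : ∀ i, π (r i) = 1 := fun i => PresentedGroup.one_of_mem ⟨i, rfl⟩
  haveI hKπ : (K.map π).Normal := Subgroup.Normal.map inferInstance π hπ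
  have hdelta : ∀ s ∈ Set.range (FreeGroup.of : Fin d → FreeGroup (Fin d)),
      delta K π s = 1 := by
    rintro _ ⟨i, rfl⟩
    have h1 : psi K π (w i) = 1 := by
      have h2 : (π.subgroupMap K) (w i) = 1 := by
        apply Subtype.ext
        exact hπr i
      unfold psi
      rw [MonoidHom.comp_apply, h2, map_one]
    have h3 : psi K π (w i) = ∏ t : FreeGroup (Fin d) ⧸ K,
        psi K π ⟨ee K (FreeGroup.of i) t, ee_mem K _ t⟩ := by
      simp only [w]
      rw [map_list_prod, List.map_map, ← Finset.prod_map_toList]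
      rfl
    rw [h3] at h1
    rw [← h1]
    unfold delta
    congr!
  haveI hfin : Finite (Abelianization (K.map π)) :=
    finite_ab K π (Set.range FreeGroup.of) (FreeGroup.closure_range_of _) hdelta
  haveI hKπi : (K.map π).FiniteIndex := by
    constructor
    intro h0
    have := Subgroup.index_map_dvd K hπ
    rw [h0] at this
    exact hK.index_ne_zero (zero_dvd_iff.1 this)
  have hsmall : ∀ H : Subgroup G, H.index ≠ 0 → H.index ≤ N + 1 → Finite (Abelianization H) := by
    intro H h0 hN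
    have h1 : (H.comap π).index = H.index := Subgroup.index_comap_of_surjective H hπ
    have h2 : KN d (N + 1) ≤ H.comap π := KN_le d (N + 1) _ (by rw [h1]; exact h0)
      (by rw [h1]; exact hN)
    have h3 : K.map π ≤ H := Subgroup.map_le_iff_le_comap.2 (hK1.trans h2)
    exact finite_ab_of_le (K.map π) H h3
  haveI htop : Finite (Abelianization G) := by
    have h1 := hsmall ⊤ (by simp) (by simp)
    have e : (⊤ : Subgroup G) ≃* G := Subgroup.topEquiv
    exact Finite.of_equiv _ (e.abelianizationCongr).toEquiv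
  have hexpo : ∀ i, ∃ v : Fin d → ℤ, expo d v (r i) ≠ 1 := fun i => expo_ne d r i
  have hD : ∀ p : ℕ, p.Prime → p ≤ N → ∀ i,
      MonoidAlgebra.of (ZMod p) (FreeGroup (Fin d)) (r i) - 1 ∈
      aug p (FreeGroup (Fin d)) ^ (m + 4 + 1) := fun p hp hpN i =>
    hZ2 (⟨p, by omega⟩ : Fin (N + 1)) hp (r i) (hK2 _ (w i).2)
  have hall : ∀ p : ℕ, p.Prime → p ≤ N → ∀ i, ∃ k, m + 4 + 1 ≤ k ∧ HasDeg p d (r i) k := by
    intro p hp hpN i
    haveI : Fact p.Prime := ⟨hp⟩
    obtain ⟨v, hv⟩ := hexpo i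
    obtain ⟨k, hk, h1, h2⟩ := exists_deg p d v (r i) hv (m + 4) (hD p hp hpN i)
    exact ⟨k, hk, h1, h2⟩
  refine ⟨r, ?_, fun p hp hpN i => ?_, fun H h0 hN => hsmall H h0 (hN.trans (Nat.le_succ N))⟩
  swap
  · obtain ⟨k, hk, h⟩ := hall p hp hpN i
    exact ⟨k, by omega, h⟩
  intro p hp hpN
  refine ⟨d, Set.range r, ?_, ⟨MulEquiv.refl _⟩, ?_⟩
  · rintro ⟨i, hi⟩
    obtain ⟨v, hv⟩ := hexpo i
    rw [hi, map_one] at hv
    exact hv rfl
  have hdeg : ∀ x : Set.range r, ∃ k : ℕ, 4 + 1 ≤ k ∧ HasDeg p d x k := by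
    rintro ⟨_, ⟨i, rfl⟩⟩
    obtain ⟨k, hk, h⟩ := hall p hp hpN i
    exact ⟨k, by omega, h⟩
  choose deg hk5 hdeg using hdeg
  haveI : Fintype (Set.range r) := Fintype.ofFinite _
  refine ⟨deg, hdeg, 3 / 4, by norm_num, by norm_num, Summable.of_finite, ?_⟩
  rw [tsum_fintype]
  have hc : Fintype.card (Set.range r) ≤ d := by
    have := Fintype.card_le_of_surjective (Set.rangeFactorization r) Set.rangeFactorization_surjective
    simpa using this
  have hs : ∑ x : Set.range r, ((3 : ℝ) / 4) ^ deg x ≤ (d : ℝ) * (3 / 4) ^ 5 := by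
    calc ∑ x : Set.range r, ((3 : ℝ) / 4) ^ deg x
        ≤ ∑ _x : Set.range r, ((3 : ℝ) / 4) ^ 5 := by
          refine Finset.sum_le_sum fun x _ => ?_
          exact pow_le_pow_of_le_one (by norm_num) (by norm_num) (hk5 x)
      _ = (Fintype.card (Set.range r) : ℝ) * (3 / 4) ^ 5 := by
          rw [Finset.sum_const, Finset.card_univ, nsmul_eq_mul]
      _ ≤ (d : ℝ) * (3 / 4) ^ 5 := by
          have : (Fintype.card (Set.range r) : ℝ) ≤ d := by exact_mod_cast hc
          gcongr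
  have hd2 : (2 : ℝ) ≤ d := by exact_mod_cast hd
  norm_num at hs ⊢
  nlinarith

end Pool.Agent.Results.MP_f3c012_al.BoundedIndex
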