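import Mathlib

/-!
# MP_f3c012_al: lifting generators over a semisimple algebra (helper81)
-/

set_option autoImplicit false
set_option linter.unusedSectionVars false

namespace Pool.Agent.Work.MP_f3c012_al

section

variable {Λ : Type*} [Ring Λ] [Algebra ℚ Λ] [IsSemisimpleRing Λ] [Module.Finite ℚ Λ]
variable {M : Type*} [AddCommGroup M] [Module Λ M] [Module ℚ M] [IsScalarTower ℚ Λ M]
  [Module.Finite ℚ M]

/-- dimension of a submodule -/
noncomputable def dm (N : Submodule Λ M) : ℕ := Module.finrank ℚ (N.restrictScalars ℚ)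

theorem dm_lt {N N' : Submodule Λ M} (h : N < N') : dm N < dm N' := by
  unfold dm
  apply Submodule.finrank_lt_finrank_of_lt
  exact h

theorem dm_le (N : Submodule Λ M) : dm N ≤ Module.finrank ℚ M :=
  Submodule.finrank_le _

/-- A hom space is finite dimensional. -/
instance hom_finite {T P : Type*} [AddCommGroup T] [Module Λ T] [Module ℚ T]
    [IsScalarTower ℚ Λ T] [Module.Finite ℚ T] [AddCommGroup P] [Module Λ P] [Module ℚ P]
    [IsScalarTower ℚ Λ P] [Module.Finite ℚ P] : Module.Finite ℚ (T →ₗ[Λ] P) :=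
  Module.Finite.of_injective (LinearMap.restrictScalarsₗ ℚ Λ T P ℚ)
    (LinearMap.restrictScalars_injective ℚ)

/-- If `P → M` is onto and `f : P → M` misses a simple submodule `T`, then `T` embeds into the
kernel of `f`. -/
theorem exists_emb {P : Type*} [AddCommGroup P] [Module Λ P] [Module ℚ P]
    [IsScalarTower ℚ Λ P] [Module.Finite ℚ P] (w f : P →ₗ[Λ] M) (hw : Function.Surjective w)
    (T : Submodule Λ M) [IsSimpleModule Λ T] (hT : ¬ T ≤ LinearMap.range f) :
    ∃ φ : T →ₗ[Λ] P, Function.Injective φ ∧ f ∘ₗ φ = 0 := by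
  by_contra hc
  push Not at hc
  have : Module.Finite ℚ T := inferInstanceAs (Module.Finite ℚ (T.restrictScalars ℚ))
  let F₁ : (T →ₗ[Λ] P) →ₗ[ℚ] (T →ₗ[Λ] M) :=
    { toFun := fun φ => f ∘ₗ φ
      map_add' := fun φ ψ => LinearMap.comp_add φ ψ f
      map_smul' := fun c φ => by
        ext x
        simp }
  let F₂ : (T →ₗ[Λ] P) →ₗ[ℚ] (T →ₗ[Λ] M) :=
    { toFun := fun φ => w ∘ₗ φ
      map_add' := fun φ ψ => LinearMap.comp_add φ ψ w
      map_smul' := fun c φ => by
        ext x
        simp }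
  have h1 : Function.Injective F₁ := by
    rw [injective_iff_map_eq_zero]
    intro φ hφ
    rcases φ.injective_or_eq_zero with h | h
    · exact absurd hφ (hc φ h)
    · exact h
  have h2 : Function.Surjective F₂ := fun ψ =>
    IsSemisimpleModule.lifting_property w hw ψ
  have h3 : LinearMap.range F₁ < ⊤ := by
    rw [lt_top_iff_ne_top]
    intro h
    apply hT
    have h4 : T.subtype ∈ LinearMap.range F₁ := by rw [h]; trivial
    obtain ⟨φ, hφ⟩ := h4
    intro t ht
    have h5 := LinearMap.congr_fun hφ ⟨t, ht⟩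
    exact ⟨φ ⟨t, ht⟩, h5⟩
  have e1 := LinearMap.finrank_range_of_inj h1
  have e2 := LinearMap.finrank_range_le F₂
  rw [LinearMap.range_eq_top.2 h2, finrank_top] at e2
  have e3 := Submodule.finrank_lt h3.ne
  omega

/-- If the span of `r + s` is too small, it can be enlarged. -/
theorem enlarge {d : ℕ} (w r s : Fin d → M) (hw : Submodule.span Λ (Set.range w) = ⊤)
    (S : Submodule Λ M) (hr : Submodule.span Λ (Set.range r) ⊔ S = ⊤) (hs : ∀ i, s i ∈ S)
    (hne : Submodule.span Λ (Set.range (r + s)) ≠ ⊤) :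
    ∃ u : Fin d → M, (∀ i, u i ∈ S) ∧ ∀ c : ℚ, c ≠ 0 →
      dm (Submodule.span Λ (Set.range (r + s))) <
        dm (Submodule.span Λ (Set.range (r + (s + c • u)))) := by
  classical
  let f : (Fin d → Λ) →ₗ[Λ] M := Fintype.linearCombination Λ (r + s)
  let w' : (Fin d → Λ) →ₗ[Λ] M := Fintype.linearCombination Λ w
  have hf : LinearMap.range f = Submodule.span Λ (Set.range (r + s)) :=
    Fintype.range_linearCombination Λ (r + s)
  have hw' : Function.Surjective w' := by
    rw [← LinearMap.range_eq_top]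
    exact (Fintype.range_linearCombination Λ w).trans hw
  rw [← hf] at hne ⊢
  set M' := LinearMap.range f with hM'
  have h1 : M' ⊔ S = ⊤ := by
    rw [eq_top_iff, ← hr]
    refine sup_le ?_ le_sup_right
    rw [Submodule.span_le]
    rintro _ ⟨i, rfl⟩
    have h2 : (r + s) i ∈ M' := by
      rw [hf]
      exact Submodule.subset_span ⟨i, rfl⟩
    have h3 : r i = (r + s) i - s i := by
      rw [Pi.add_apply, add_sub_cancel_right]
    rw [h3]
    exact sub_mem (Submodule.mem_sup_left h2) (Submodule.mem_sup_right (hs i))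
  -- a simple submodule of `S` not in `M'`
  obtain ⟨C, hC⟩ := exists_isCompl (S ⊓ M')
  have hS' : S ⊓ C ≠ ⊥ := by
    intro h
    have h2 : S ≤ M' := by
      have h3 : S = (S ⊓ M') ⊔ (S ⊓ C) := by
        rw [inf_comm S C, ← sup_inf_assoc_of_le C (inf_le_left : S ⊓ M' ≤ S), hC.sup_eq_top,
          top_inf_eq]
      rw [h, sup_bot_eq] at h3
      rw [h3]
      exact inf_le_right
    rw [sup_eq_left.2 h2] at h1
    exact hne h1
  obtain ⟨T, hTS, hTs⟩ := (IsSemisimpleModule.eq_bot_or_exists_simple_le (S ⊓ C)).resolve_left hS'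
  have hTM : ¬ T ≤ M' := by
    intro h
    have h2 : T ≤ ⊥ := by
      rw [← hC.inf_eq_bot]
      exact le_inf (le_inf (hTS.trans inf_le_left) h) (hTS.trans inf_le_right)
    have h3 : T = ⊥ := le_bot_iff.1 h2
    have h4 := hTs.nontrivial
    rw [h3] at h4
    exact not_nontrivial _ h4
  obtain ⟨φ, hφ, hfφ⟩ := exists_emb w' f hw' T hTM
  obtain ⟨h, hh⟩ := IsSemisimpleModule.extension_property φ hφ LinearMap.id
  have hh' : ∀ t, h (φ t) = t := fun t => LinearMap.congr_fun hh t
  have hfφ' : ∀ t, f (φ t) = 0 := fun t => LinearMap.congr_fun hfφ t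
  let u : Fin d → M := fun i => (h (Pi.single i 1) : M)
  refine ⟨u, fun i => (hTS (h (Pi.single i 1)).2).1, fun c hc => ?_⟩
  have hcomb : ∀ p : Fin d → Λ, Fintype.linearCombination Λ (r + (s + c • u)) p =
      f p + c • (h p : M) := by
    intro p
    have e1 : (h p : M) = ∑ i, p i • u i := by
      have e2 : p = ∑ i, p i • (Pi.single i 1 : Fin d → Λ) := by
        funext j
        simp [Finset.sum_apply, Pi.single_apply]
      conv_lhs => rw [e2, map_sum]
      rw [Submodule.coe_sum]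
      refine Finset.sum_congr rfl fun i _ => ?_
      rw [map_smul]
      rfl
    rw [e1, Fintype.linearCombination_apply]
    show _ = Fintype.linearCombination Λ (r + s) p + _
    rw [Fintype.linearCombination_apply, Finset.smul_sum, ← Finset.sum_add_distrib]
    refine Finset.sum_congr rfl fun i _ => ?_
    simp only [Pi.add_apply, Pi.smul_apply]
    rw [smul_add, smul_add, smul_add, smul_comm c (p i) (u i), add_assoc]
  apply dm_lt
  refine lt_of_lt_of_le (lt_of_le_of_ne (le_sup_left : M' ≤ M' ⊔ T) ?_) (sup_le ?_ ?_)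
  · intro h2
    apply hTM
    rw [h2]
    exact le_sup_right
  · rintro _ ⟨p, rfl⟩
    rw [← Fintype.range_linearCombination]
    refine ⟨p - φ (h p), ?_⟩
    rw [hcomb, map_sub, map_sub, hfφ', hh', sub_zero, sub_self]
    simp
  · intro t ht
    rw [← Fintype.range_linearCombination]
    refine ⟨c⁻¹ • φ ⟨t, ht⟩, ?_⟩
    rw [hcomb]
    have e1 : f (c⁻¹ • φ ⟨t, ht⟩) = 0 := by
      have e2 : f (c⁻¹ • φ ⟨t, ht⟩) = c⁻¹ • f (φ ⟨t, ht⟩) := by
        rw [← algebraMap_smul Λ c⁻¹ (φ ⟨t, ht⟩), map_smul, algebraMap_smul]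
      rw [e2, hfφ', smul_zero]
    have e3 : (h (c⁻¹ • φ ⟨t, ht⟩) : M) = c⁻¹ • t := by
      rw [← algebraMap_smul Λ c⁻¹ (φ ⟨t, ht⟩), map_smul, hh', Submodule.coe_smul, algebraMap_smul]
    rw [e1, e3, zero_add, smul_smul, mul_inv_cancel₀ hc, one_smul]

/-- Lifting of generators, integral form. -/
theorem lift_gen {d : ℕ} (w r : Fin d → M) (hw : Submodule.span Λ (Set.range w) = ⊤)
    (S : Submodule Λ M) (hr : Submodule.span Λ (Set.range r) ⊔ S = ⊤) (L : AddSubgroup M)
    (hLS : ∀ x ∈ L, x ∈ S) (hSL : ∀ x ∈ S, ∃ n : ℕ, n ≠ 0 ∧ n • x ∈ L) :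
    ∃ s : Fin d → M, (∀ i, s i ∈ L) ∧ Submodule.span Λ (Set.range (r + s)) = ⊤ := by
  classical
  by_contra hc
  push Not at hc
  have key : ∀ n : ℕ, ∃ s : Fin d → M, (∀ i, s i ∈ L) ∧
      n ≤ dm (Submodule.span Λ (Set.range (r + s))) := by
    intro n
    induction n with
    | zero => exact ⟨0, fun i => L.zero_mem, Nat.zero_le _⟩
    | succ n ih =>
      obtain ⟨s, hs, hn⟩ := ih
      obtain ⟨u, hu, hlt⟩ := enlarge w r s hw S hr (fun i => hLS _ (hs i)) (hc s hs)
      choose m hm hmL using fun i => hSL (u i) (hu i)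
      let c : ℕ := ∏ i, m i
      have hc0 : c ≠ 0 := Finset.prod_ne_zero_iff.2 fun i _ => hm i
      refine ⟨s + (c : ℚ) • u, fun i => ?_, ?_⟩
      · rw [Pi.add_apply, Pi.smul_apply, Nat.cast_smul_eq_nsmul]
        refine L.add_mem (hs i) ?_
        have h1 : c • u i = (∏ j ∈ Finset.univ.erase i, m j) • (m i • u i) := by
          rw [smul_smul, Finset.prod_erase_mul _ _ (Finset.mem_univ i)]
        rw [h1]
        exact L.nsmul_mem (hmL i) _
      · have := hlt c (Nat.cast_ne_zero.2 hc0)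
        omega
  obtain ⟨s, _, hs⟩ := key (Module.finrank ℚ M + 1)
  have := dm_le (Submodule.span Λ (Set.range (r + s)))
  omega

end

end Pool.Agent.Work.MP_f3c012_al
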