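import Pool.Agent.Work.MP_f3c012_al.A
import Pool.Agent.Work.MP_f3c012_al.L

/-!
# MP_f3c012_al: changing relators inside a normal subgroup (helper81)
-/

set_option autoImplicit false
set_option linter.unusedSectionVars false

namespace Pool.Agent.Work.MP_f3c012_al

open Subgroup TensorProduct

section

variable {F : Type} [Group F] (K : Subgroup F) [K.Normal]

/-- The rational abelianization. -/
abbrev QA : Type := ℚ ⊗[ℤ] (Additive (Abelianization K))

/-- The action by conjugation on the abelianization. -/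
noncomputable def cj (g : F) : Abelianization K →* Abelianization K :=
  Abelianization.map (MulAut.conjNormal g : K ≃* K).toMonoidHom

theorem cj_of (g : F) (k : K) : cj K g (Abelianization.of k) =
    Abelianization.of ⟨g * k * g⁻¹, (‹K.Normal›).conj_mem _ k.2 g⟩ := by
  unfold cj
  rw [Abelianization.map_of]
  congr 1

theorem cj_one : cj K 1 = MonoidHom.id _ := by
  ext k
  simp [cj_of]

theorem cj_mul (g h : F) : cj K (g * h) = (cj K g).comp (cj K h) := by
  ext k
  simp only [MonoidHom.comp_apply, cj_of]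
  congr 1
  apply Subtype.ext
  simp [mul_assoc]

theorem cj_mem (k : F) (hk : k ∈ K) : cj K k = MonoidHom.id _ := by
  ext l
  simp only [MonoidHom.comp_apply, cj_of, MonoidHom.id_apply]
  have h : (⟨k * l * k⁻¹, (‹K.Normal›).conj_mem _ l.2 k⟩ : K) = ⟨k, hk⟩ * l * ⟨k, hk⟩⁻¹ := rfl
  rw [h, map_mul, map_mul, map_inv, mul_comm (Abelianization.of _) (Abelianization.of l),
    mul_inv_cancel_right]

/-- The representation of `F` on the rational abelianization. -/
noncomputable def rhoF : F →* Module.End ℚ (QA K) where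
  toFun g := LinearMap.baseChange ℚ ((cj K g).toAdditive.toIntLinearMap)
  map_one' := by
    rw [cj_one]
    ext x
    simp
  map_mul' g h := by
    rw [cj_mul]
    ext x
    simp

theorem rhoF_tmul (g : F) (q : ℚ) (a : Abelianization K) :
    rhoF K g (q ⊗ₜ Additive.ofMul a) = q ⊗ₜ Additive.ofMul (cj K g a) := rfl

/-- The representation of the finite quotient. -/
noncomputable def rho : Representation ℚ (F ⧸ K) (QA K) :=
  QuotientGroup.lift K (rhoF K) (by
    intro k hk
    show LinearMap.baseChange ℚ ((cj K k).toAdditive.toIntLinearMap) = 1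
    rw [cj_mem K k hk]
    ext x
    simp)

/-- The module over the group algebra. -/
abbrev QM : Type := (rho K).asModule

/-- The class of an element of the abelianization. -/
noncomputable def ia (a : Abelianization K) : QM K := (1 : ℚ) ⊗ₜ[ℤ] Additive.ofMul a

theorem ia_mul (a b : Abelianization K) : ia K (a * b) = ia K a + ia K b := by
  unfold ia
  rw [ofMul_mul]
  exact TensorProduct.tmul_add _ _ _

theorem ia_one : ia K 1 = 0 := by
  have h := ia_mul K 1 1
  rw [one_mul] at h
  simpa using h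

theorem ia_inv (a : Abelianization K) : ia K a⁻¹ = - ia K a := by
  rw [eq_neg_iff_add_eq_zero, ← ia_mul, inv_mul_cancel, ia_one]

theorem ia_pow (a : Abelianization K) (n : ℕ) : ia K (a ^ n) = n • ia K a := by
  induction n with
  | zero => rw [pow_zero, ia_one, zero_smul]
  | succ n ih => rw [pow_succ, ia_mul, ih, succ_nsmul]

theorem ia_zero {a : Abelianization K} (h : ia K a = 0) : ∃ n : ℕ, n ≠ 0 ∧ a ^ n = 1 := by
  have : IsLocalizedModule (nonZeroDivisors ℤ)
      (TensorProduct.mk ℤ ℚ (Additive (Abelianization K)) 1) :=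
    (isLocalizedModule_iff_isBaseChange (nonZeroDivisors ℤ) ℚ _).2 (TensorProduct.isBaseChange ..)
  have h1 : TensorProduct.mk ℤ ℚ (Additive (Abelianization K)) 1 (Additive.ofMul a) = 0 := h
  obtain ⟨⟨s, hs⟩, h2⟩ := (IsLocalizedModule.eq_zero_iff (nonZeroDivisors ℤ) _).1 h1
  have h3 : s • Additive.ofMul a = 0 := h2
  have h4 : a ^ s = 1 := h3
  have hs0 : s ≠ 0 := nonZeroDivisors.ne_zero hs
  refine ⟨s.natAbs, Int.natAbs_ne_zero.2 hs0, ?_⟩
  rcases Int.natAbs_eq s with h5 | h5
  · rw [h5, zpow_natCast] at h4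
    exact h4
  · rw [h5, zpow_neg, zpow_natCast, inv_eq_one] at h4
    exact h4

theorem of_smul_ia (g : F) (a : Abelianization K) :
    MonoidAlgebra.of ℚ (F ⧸ K) (g : F ⧸ K) • ia K a = ia K (cj K g a) := by
  have h := Representation.asModuleEquiv_symm_map_rho (rho K) (g : F ⧸ K)
    ((1 : ℚ) ⊗ₜ[ℤ] Additive.ofMul a)
  exact h.symm

/-- A submodule from a set of elements which is closed under the group. -/
def mkSub (N : AddSubgroup (QM K)) (h1 : ∀ g : F, ∀ x ∈ N,
    MonoidAlgebra.of ℚ (F ⧸ K) (g : F ⧸ K) • x ∈ N) (h2 : ∀ q : ℚ, ∀ x ∈ N, q • x ∈ N) :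
    Submodule (MonoidAlgebra ℚ (F ⧸ K)) (QM K) where
  carrier := N
  add_mem' := N.add_mem
  zero_mem' := N.zero_mem
  smul_mem' := by
    intro c x hx
    induction c using MonoidAlgebra.induction_on with
    | of g =>
      obtain ⟨g, rfl⟩ := QuotientGroup.mk_surjective g
      exact h1 g x hx
    | add a b ha hb =>
      rw [add_smul]
      exact N.add_mem ha hb
    | smul r a ha =>
      rw [smul_assoc]
      exact h2 r _ ha

/-- The submodule of the elements with a multiple in the image of a normal subgroup. -/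
def sat (N : Subgroup F) [N.Normal] (hN : N ≤ K) :
    Submodule (MonoidAlgebra ℚ (F ⧸ K)) (QM K) :=
  mkSub K
    { carrier := {x | ∃ n : ℕ, n ≠ 0 ∧ ∃ k : F, ∃ hk : k ∈ N,
        n • x = ia K (Abelianization.of ⟨k, hN hk⟩)}
      add_mem' := by
        rintro x y ⟨n, hn, k, hk, hx⟩ ⟨m, hm, l, hl, hy⟩
        refine ⟨n * m, mul_ne_zero hn hm, k ^ m * l ^ n,
          N.mul_mem (N.pow_mem hk _) (N.pow_mem hl _), ?_⟩
        have e : (⟨k ^ m * l ^ n, hN (N.mul_mem (N.pow_mem hk _) (N.pow_mem hl _))⟩ : K) =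
          ⟨k, hN hk⟩ ^ m * ⟨l, hN hl⟩ ^ n := rfl
        rw [e, map_mul, map_pow, map_pow, ia_mul, ia_pow, ia_pow, ← hx, ← hy, smul_add,
          smul_smul, smul_smul, mul_comm m n]
      zero_mem' := ⟨1, one_ne_zero, 1, N.one_mem, by
        have e : (⟨1, hN N.one_mem⟩ : K) = 1 := rfl
        rw [e, map_one, ia_one, smul_zero]⟩
      neg_mem' := by
        rintro x ⟨n, hn, k, hk, hx⟩
        refine ⟨n, hn, k⁻¹, N.inv_mem hk, ?_⟩
        have e : (⟨k⁻¹, hN (N.inv_mem hk)⟩ : K) = ⟨k, hN hk⟩⁻¹ := rfl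
        rw [e, map_inv, ia_inv, ← hx, smul_neg] }
    (by
      rintro g x ⟨n, hn, k, hk, hx⟩
      refine ⟨n, hn, g * k * g⁻¹, (‹N.Normal›).conj_mem _ hk g, ?_⟩
      rw [← smul_comm, hx, of_smul_ia, cj_of])
    (by
      rintro q x ⟨n, hn, k, hk, hx⟩
      obtain ⟨z, m, hm, hq⟩ : ∃ (z : ℤ) (m : ℕ), m ≠ 0 ∧ (m : ℚ) * q = z :=
        ⟨q.num, q.den, q.den_nz, by rw [mul_comm]; exact Rat.mul_den_eq_num q⟩
      refine ⟨m * n, mul_ne_zero hm hn, k ^ z, N.zpow_mem hk z, ?_⟩
      have e : (⟨k ^ z, hN (N.zpow_mem hk z)⟩ : K) = ⟨k, hN hk⟩ ^ z := rfl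
      have e2 : ∀ a : Abelianization K, ia K (a ^ z) = z • ia K a := by
        intro a
        rcases Int.natAbs_eq z with h5 | h5
        · rw [h5, zpow_natCast, ia_pow, natCast_zsmul]
        · rw [h5, zpow_neg, zpow_natCast, ia_inv, ia_pow, neg_smul, natCast_zsmul]
      rw [e, map_zpow, e2, ← hx]
      rw [← Nat.cast_smul_eq_nsmul ℚ, ← Nat.cast_smul_eq_nsmul ℚ, ← Int.cast_smul_eq_zsmul ℚ,
        smul_smul, smul_smul, ← hq]
      congr 1
      push_cast
      ring)

theorem mem_sat {N : Subgroup F} [N.Normal] {hN : N ≤ K} {x : QM K} :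
    x ∈ sat K N hN ↔ ∃ n : ℕ, n ≠ 0 ∧ ∃ k : F, ∃ hk : k ∈ N,
        n • x = ia K (Abelianization.of ⟨k, hN hk⟩) := Iff.rfl

theorem ia_mem_top (a : Abelianization K) : ia K a ∈ sat K K le_rfl := by
  obtain ⟨k, rfl⟩ := QuotientGroup.mk'_surjective _ a
  rw [mem_sat]
  exact ⟨1, one_ne_zero, k, k.2, one_smul _ _⟩

theorem eq_top_of_ia (W : Submodule (MonoidAlgebra ℚ (F ⧸ K)) (QM K))
    (h : ∀ a, ia K a ∈ W) : W = ⊤ := by
  rw [eq_top_iff]
  intro x _
  have key : ∀ y : QA K, (rho K).asModuleEquiv.symm y ∈ W := by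
    intro y
    induction y using TensorProduct.induction_on with
    | zero =>
      rw [map_zero]
      exact W.zero_mem
    | tmul q a =>
      have h1 : (q ⊗ₜ[ℤ] a : QA K) = q • ((1 : ℚ) ⊗ₜ[ℤ] a : QA K) := by
        rw [TensorProduct.smul_tmul', smul_eq_mul, mul_one]
      rw [h1, map_smul]
      exact W.smul_of_tower_mem q (h (Additive.toMul a))
    | add y z hy hz =>
      rw [map_add]
      exact W.add_mem hy hz
  exact key ((rho K).asModuleEquiv x)

theorem sat_top : sat K K le_rfl = ⊤ := eq_top_of_ia K _ (ia_mem_top K)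

end

end Pool.Agent.Work.MP_f3c012_al
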